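import Pool.Agent.J4H7.WP.B

set_option autoImplicit false

/-!
# Waring's problem for `n ^ k + ⌊n ^ g⌋`, all `g > 1`, part A (helper7)

The number of pairs with `|c + ∑ (x_i ^ k - y_i ^ k)| ≤ R` (counting idea of helper30).
-/

namespace Pool.Agent.J4H7.WR

open Real Set Filter Topology
open Pool.Agent.J4H7.WE
open Pool.Agent.J4H7.WP

/-- the form with exponent `k` -/
noncomputable def AP (k : ℕ) {m : ℕ} (p : Fin m → ℕ × ℕ) : ℝ := ∑ i, (((p i).1 : ℝ) ^ k - ((p i).2 : ℝ) ^ k)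

lemma lev_succ' {q X : ℝ} (hX : 1 ≤ X) (i : ℕ) : lev q X (i + 1) = lev q (X ^ q) i := by
  unfold lev
  rw [← Real.rpow_mul (by linarith), pow_succ, mul_comm (q ^ i) q]

lemma SS_succ' {q X : ℝ} (hX : 1 ≤ X) (i : ℕ) : SS q X (i + 1) = SS q (X ^ q) i := by
  unfold SS
  rw [lev_succ' hX]

lemma AP_cons (k : ℕ) {n : ℕ} (z : ℕ × ℕ) (p : Fin n → ℕ × ℕ) :
    AP k (Fin.cons z p : Fin (n + 1) → ℕ × ℕ) = ((z.1 : ℝ) ^ k - (z.2 : ℝ) ^ k) + AP k p := by
  unfold AP
  rw [Fin.sum_univ_succ]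
  simp

lemma sum_PPs_succ {q X : ℝ} (hX : 1 ≤ X) (n : ℕ) (F : (Fin (n + 1) → ℕ × ℕ) → ℝ) :
    ∑ p ∈ PPs q X (n + 1), F p = ∑ z ∈ SS q X 0 ×ˢ SS q X 0, ∑ p ∈ PPs q (X ^ q) n, F (Fin.cons z p) := by
  rw [← Finset.sum_product']
  refine Finset.sum_bij' (fun p _ => (p 0, Fin.tail p)) (fun zp _ => Fin.cons zp.1 zp.2) ?_ ?_ ?_ ?_ ?_
  · intro p hp
    rw [mem_PPs] at hp
    rw [Finset.mem_product, Finset.mem_product, mem_PPs]
    refine ⟨?_, fun i => ?_⟩
    · exact hp 0
    · have := hp i.succ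
      rw [Fin.val_succ, SS_succ' hX] at this
      exact this
  · intro zp hzp
    rw [Finset.mem_product, Finset.mem_product, mem_PPs] at hzp
    rw [mem_PPs]
    intro i
    refine Fin.cases ?_ (fun i => ?_) i
    · simpa using hzp.1
    · rw [Fin.cons_succ, Fin.val_succ, SS_succ' hX]
      exact hzp.2 i
  · intro p _
    exact Fin.cons_self_tail p
  · intro zp _
    simp
  · intro p _
    rw [Fin.cons_self_tail]

lemma card_close (S : Finset ℕ) {T : ℝ} (hT : 0 ≤ T) (h : ∀ y ∈ S, ∀ y' ∈ S, y ≤ y' → ((y' : ℝ) - y) ≤ T) :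
    (S.card : ℝ) ≤ 1 + T := by
  rcases S.eq_empty_or_nonempty with rfl | hne
  · simp
    linarith
  · set a := S.min' hne
    set b := S.max' hne
    have hab : a ≤ b := S.min'_le _ (S.max'_mem hne)
    have h1 : S ⊆ Finset.Icc a b := by
      intro y hy
      rw [Finset.mem_Icc]
      exact ⟨S.min'_le _ hy, S.le_max' _ hy⟩
    have h2 := Finset.card_le_card h1
    rw [Nat.card_Icc] at h2
    have h3 : (S.card : ℝ) ≤ ((b + 1 - a : ℕ) : ℝ) := by exact_mod_cast h2
    rw [Nat.cast_sub (by omega)] at h3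
    push_cast at h3
    have := h a (S.min'_mem hne) b (S.max'_mem hne) hab
    linarith

lemma card_pow {k : ℕ} (hk : 2 ≤ k) {X c T : ℝ} (hX : 1 ≤ X) (hT : 0 ≤ T) (S : Finset ℕ) (hS : ∀ y ∈ S, X ≤ (y : ℝ))
    (h : ∀ y ∈ S, |c - (y : ℝ) ^ k| ≤ T) : (S.card : ℝ) ≤ 1 + 2 * T / X ^ ((k : ℝ) - 1) := by
  have hk' : (2 : ℝ) ≤ k := by exact_mod_cast hk
  have hP : 0 < X ^ ((k : ℝ) - 1) := Real.rpow_pos_of_pos (by linarith) _
  refine card_close S (by positivity) ?_
  intro y hy y' hy' hyy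
  have h1 := pow_diff (θ := (k : ℝ)) (Y := X) (x := (y' : ℝ)) (y := (y : ℝ)) (by linarith) (by linarith) (hS y hy)
    (by exact_mod_cast hyy)
  rw [Real.rpow_natCast, Real.rpow_natCast] at h1
  have h2 := (abs_le.1 (h y hy)).2
  have h3 := (abs_le.1 (h y' hy')).1
  rw [le_div_iff₀ hP]
  linarith

open scoped Classical in
/-- the number of pairs -/
noncomputable def NPs (q X : ℝ) (k n : ℕ) (c R : ℝ) : ℝ := ∑ p ∈ PPs q X n, if |c + AP k p| ≤ R then 1 else 0

/-- the product of the squares of the levels -/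
noncomputable def LL (q X : ℝ) (n : ℕ) : ℝ := ∏ i ∈ Finset.range n, lev q X i ^ 2

lemma LL_nonneg (q X : ℝ) (n : ℕ) : 0 ≤ LL q X n := Finset.prod_nonneg fun _ _ => by positivity

lemma LL_succ {q X : ℝ} (hX : 1 ≤ X) (n : ℕ) : LL q X (n + 1) = X ^ 2 * LL q (X ^ q) n := by
  unfold LL
  rw [Finset.prod_range_succ', mul_comm]
  congr 1
  · unfold lev
    simp
  · exact Finset.prod_congr rfl fun i _ => by rw [lev_succ' hX]

lemma PPs_card {q : ℝ} (hq : 0 < q) (n : ℕ) : ∀ X : ℝ, 1 ≤ X → ((PPs q X n).card : ℝ) ≤ 4 ^ n * LL q X n := by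
  induction n with
  | zero =>
    intro X _
    unfold LL PPs
    simp
  | succ n ih =>
    intro X hX
    have h1 : ((PPs q X (n + 1)).card : ℝ) = ∑ p ∈ PPs q X (n + 1), (1 : ℝ) := by simp
    rw [h1, sum_PPs_succ hX]
    have hXq : 1 ≤ X ^ q := Real.one_le_rpow hX hq.le
    have h2 := ih (X ^ q) hXq
    have h3 := SS_card hq.le hX 0
    have h4 : lev q X 0 = X := by unfold lev; simp
    rw [h4] at h3
    simp only [Finset.sum_const, Finset.card_product, nsmul_eq_mul, mul_one]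
    push_cast
    rw [LL_succ hX, pow_succ]
    have h5 : (0 : ℝ) ≤ (SS q X 0).card := by positivity
    have h6 : ((SS q X 0).card : ℝ) * (SS q X 0).card ≤ (2 * X) * (2 * X) := mul_le_mul h3 h3 h5 (by linarith)
    calc ((SS q X 0).card : ℝ) * (SS q X 0).card * (PPs q (X ^ q) n).card
        ≤ ((2 * X) * (2 * X)) * (4 ^ n * LL q (X ^ q) n) := mul_le_mul h6 h2 (by positivity) (by positivity)
      _ = _ := by ring

/-- the tails are small -/
lemma AP_le {q X : ℝ} (hq : 0 < q) (hq1 : q < 1) (hX : 1 ≤ X) (k : ℕ) {n : ℕ} (p : Fin n → ℕ × ℕ)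
    (hp : p ∈ PPs q X n) : |AP k p| ≤ n * (2 ^ k * X ^ (k : ℝ)) := by
  rw [mem_PPs] at hp
  unfold AP
  refine (Finset.abs_sum_le_sum_abs _ _).trans ?_
  have h1 : ∀ i : Fin n, |((p i).1 : ℝ) ^ k - ((p i).2 : ℝ) ^ k| ≤ 2 ^ k * X ^ (k : ℝ) := by
    intro i
    have key : ∀ z : ℕ, z ∈ SS q X i → 0 ≤ (z : ℝ) ^ k ∧ (z : ℝ) ^ k ≤ 2 ^ k * X ^ (k : ℝ) := by
      intro z hz
      rw [mem_SS hX] at hz
      refine ⟨by positivity, ?_⟩
      have h2 : lev q X i ≤ X := by
        have h3 : lev q X i ≤ lev q X 0 := lev_anti hq hq1 hX (Nat.zero_le _)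
        have h4 : lev q X 0 = X := by unfold lev; simp
        linarith
      rw [Real.rpow_natCast, ← mul_pow]
      exact pow_le_pow_left₀ (by positivity) (by linarith [hz.2]) k
    obtain ⟨a1, a2⟩ := key _ (hp i).1
    obtain ⟨b1, b2⟩ := key _ (hp i).2
    rw [abs_le]
    constructor <;> linarith
  calc ∑ i, |((p i).1 : ℝ) ^ k - ((p i).2 : ℝ) ^ k| ≤ ∑ _i : Fin n, 2 ^ k * X ^ (k : ℝ) := Finset.sum_le_sum fun i _ => h1 i
    _ = _ := by simp

/-- the constant -/
noncomputable def Kc (k M : ℕ) : ℝ := 6 + M * 2 ^ (k + 2)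

lemma Kc_ge (k M : ℕ) : 6 ≤ Kc k M := by
  unfold Kc
  have : (0 : ℝ) ≤ M * 2 ^ (k + 2) := by positivity
  linarith

/-- **the count** -/
theorem NPs_le {k : ℕ} (hk : 2 ≤ k) {q : ℝ} (hq : 0 < q) (hq1 : q < 1) (hB : (1 - q) * k ≤ 1) (M : ℕ) :
    ∀ n : ℕ, n ≤ M → ∀ X : ℝ, 1 ≤ X → ∀ c R : ℝ, (lev q X n) ^ (k : ℝ) ≤ R →
      NPs q X k n c R ≤ Kc k M ^ n * (LL q X n * (X ^ (-(k : ℝ)) * R)) := by
  have hk' : (2 : ℝ) ≤ k := by exact_mod_cast hk
  intro n
  induction n with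
  | zero =>
    intro _ X hX c R hR
    have h4 : lev q X 0 = X := by unfold lev; simp
    rw [h4] at hR
    have hXk : 0 < X ^ (k : ℝ) := Real.rpow_pos_of_pos (by linarith) _
    have h1 : NPs q X k 0 c R ≤ 1 := by
      unfold NPs PPs
      rw [Fintype.piFinset_of_isEmpty, Finset.univ_unique, Finset.sum_singleton]
      split_ifs <;> norm_num
    have h2 : 1 ≤ X ^ (-(k : ℝ)) * R := by
      rw [Real.rpow_neg (by linarith), ← div_eq_inv_mul, le_div_iff₀ hXk]
      linarith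
    unfold LL
    simp only [pow_zero, Finset.range_zero, Finset.prod_empty, one_mul]
    linarith
  | succ n ih =>
    intro hn X hX c R hR
    have hX0 : 0 < X := by linarith
    have hXq : 1 ≤ X ^ q := Real.one_le_rpow hX hq.le
    rw [lev_succ' hX] at hR
    have hR0 : 0 < R := lt_of_lt_of_le (Real.rpow_pos_of_pos (lev_pos hXq n) _) hR
    have hK6 := Kc_ge k M
    have hnM : (n : ℝ) ≤ M := by exact_mod_cast (by omega : n ≤ M)
    set P : ℝ := (X ^ q) ^ (k : ℝ) with hP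
    have hP1 : 1 ≤ P := Real.one_le_rpow hXq (by linarith)
    set Q : ℝ := X ^ ((k : ℝ) - 1) with hQ
    have hQ0 : 0 < Q := Real.rpow_pos_of_pos hX0 _
    have hQP : Q ≤ P := by
      rw [hP, hQ, ← Real.rpow_mul hX0.le]
      apply Real.rpow_le_rpow_of_exponent_le hX
      linarith
    have h4 : lev q X 0 = X := by unfold lev; simp
    -- the number of first components
    have hz : ∀ T : ℝ, 0 ≤ T → (∑ z ∈ SS q X 0 ×ˢ SS q X 0, if |c + ((z.1 : ℝ) ^ k - (z.2 : ℝ) ^ k)| ≤ T then (1 : ℝ) else 0) ≤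
        2 * X * (1 + 2 * T / Q) := by
      intro T hT
      rw [Finset.sum_product]
      have h5 : ∀ x ∈ SS q X 0, (∑ y ∈ SS q X 0, if |c + ((x : ℝ) ^ k - (y : ℝ) ^ k)| ≤ T then (1 : ℝ) else 0) ≤ 1 + 2 * T / Q := by
        intro x _
        rw [← Finset.sum_filter, Finset.sum_const, nsmul_eq_mul, mul_one]
        refine card_pow (c := c + (x : ℝ) ^ k) hk hX hT _ ?_ ?_
        · intro y hy
          have := ((mem_SS hX).1 (Finset.mem_filter.1 hy).1).1
          rwa [h4] at this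
        · intro y hy
          have := (Finset.mem_filter.1 hy).2
          rwa [← add_sub_assoc] at this
      refine (Finset.sum_le_sum h5).trans ?_
      rw [Finset.sum_const, nsmul_eq_mul]
      have h6 := SS_card hq.le hX 0
      rw [h4] at h6
      exact mul_le_mul_of_nonneg_right h6 (by positivity)
    -- splitting
    set T : ℝ := R + n * (2 ^ k * P) with hT
    have hT0 : 0 ≤ T := by positivity
    have hsplit : ∀ D : ℝ, 0 ≤ D → (∀ c' : ℝ, NPs q (X ^ q) k n c' R ≤ D) →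
        NPs q X k (n + 1) c R ≤ D * (2 * X * (1 + 2 * T / Q)) := by
      intro D hD hD2
      unfold NPs
      rw [sum_PPs_succ hX]
      have h7 : ∀ z ∈ SS q X 0 ×ˢ SS q X 0, (∑ p ∈ PPs q (X ^ q) n,
          if |c + AP k (Fin.cons z p : Fin (n + 1) → ℕ × ℕ)| ≤ R then (1 : ℝ) else 0) ≤
          D * (if |c + ((z.1 : ℝ) ^ k - (z.2 : ℝ) ^ k)| ≤ T then (1 : ℝ) else 0) := by
        intro z _
        by_cases h8 : |c + ((z.1 : ℝ) ^ k - (z.2 : ℝ) ^ k)| ≤ T
        · rw [if_pos h8, mul_one]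
          refine le_trans (le_of_eq ?_) (hD2 (c + ((z.1 : ℝ) ^ k - (z.2 : ℝ) ^ k)))
          unfold NPs
          refine Finset.sum_congr rfl fun p _ => ?_
          rw [AP_cons, add_assoc]
        · rw [if_neg h8, mul_zero]
          apply le_of_eq
          apply Finset.sum_eq_zero
          intro p hp
          rw [if_neg]
          intro h9
          apply h8
          have h10 := AP_le hq hq1 hXq k p hp
          rw [AP_cons] at h9
          have h11 : c + ((z.1 : ℝ) ^ k - (z.2 : ℝ) ^ k) = (c + (((z.1 : ℝ) ^ k - (z.2 : ℝ) ^ k) + AP k p)) - AP k p := by ring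
          rw [h11]
          exact (abs_sub _ _).trans (add_le_add h9 h10)
      refine (Finset.sum_le_sum h7).trans ?_
      rw [← Finset.mul_sum]
      exact mul_le_mul_of_nonneg_left (hz T hT0) hD
    have hLL := LL_nonneg q (X ^ q) n
    have hKn : (4 : ℝ) ^ n ≤ Kc k M ^ n := pow_le_pow_left₀ (by norm_num) (by linarith) n
    have hKn0 : (0 : ℝ) < Kc k M ^ n := by positivity
    have hKb : 2 * (3 + n * 2 ^ (k + 1)) ≤ Kc k M := by
      unfold Kc
      have : (n : ℝ) * 2 ^ (k + 1) ≤ M * 2 ^ (k + 1) := mul_le_mul_of_nonneg_right hnM (by positivity)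
      rw [show (2 : ℝ) ^ (k + 2) = 2 * 2 ^ (k + 1) by ring]
      linarith
    have eX : X ^ 2 * X ^ (-(k : ℝ)) = X * (1 / Q) := by
      rw [hQ, one_div, ← Real.rpow_neg hX0.le, ← Real.rpow_natCast X 2, ← Real.rpow_add hX0]
      nth_rewrite 2 [← Real.rpow_one X]
      rw [← Real.rpow_add hX0]
      congr 1
      push_cast
      ring
    rw [LL_succ hX]
    rcases le_or_gt P R with hPR | hPR
    · -- large R
      have h8 := hsplit (4 ^ n * LL q (X ^ q) n) (by positivity) (fun c' => by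
        refine le_trans ?_ (PPs_card hq n (X ^ q) hXq)
        unfold NPs
        have : ((PPs q (X ^ q) n).card : ℝ) = ∑ p ∈ PPs q (X ^ q) n, (1 : ℝ) := by simp
        rw [this]
        exact Finset.sum_le_sum fun p _ => by split_ifs <;> norm_num)
      refine h8.trans ?_
      have h9 : 1 + 2 * T / Q ≤ (3 + n * 2 ^ (k + 1)) * (R / Q) := by
        have h10 : 1 ≤ R / Q := by
          rw [le_div_iff₀ hQ0]
          linarith
        have h11 : T ≤ (1 + n * 2 ^ k) * R := by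
          rw [hT]
          have : (n : ℝ) * (2 ^ k * P) ≤ n * (2 ^ k * R) := by gcongr
          linarith
        have h12 : 2 * T / Q ≤ 2 * ((1 + n * 2 ^ k) * R) / Q := by gcongr
        have h13 : 2 * ((1 + n * 2 ^ k) * R) / Q = (2 + n * 2 ^ (k + 1)) * (R / Q) := by
          rw [show (2 : ℝ) ^ (k + 1) = 2 * 2 ^ k by ring]
          ring
        rw [h13] at h12
        linarith
      have hRQ : 0 ≤ R / Q := by positivity
      calc 4 ^ n * LL q (X ^ q) n * (2 * X * (1 + 2 * T / Q))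
          ≤ Kc k M ^ n * LL q (X ^ q) n * (2 * X * ((3 + n * 2 ^ (k + 1)) * (R / Q))) := by
            gcongr
        _ = (2 * (3 + n * 2 ^ (k + 1))) * (Kc k M ^ n * (LL q (X ^ q) n * (X * (R / Q)))) := by ring
        _ ≤ Kc k M * (Kc k M ^ n * (LL q (X ^ q) n * (X * (R / Q)))) := by
            apply mul_le_mul_of_nonneg_right hKb
            positivity
        _ = Kc k M ^ (n + 1) * (LL q (X ^ q) n * ((X * (1 / Q)) * R)) := by ring
        _ = _ := by
            rw [← eX]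
            ring
    · -- small R
      have h8 := hsplit (Kc k M ^ n * (LL q (X ^ q) n * ((X ^ q) ^ (-(k : ℝ)) * R)))
        (by have := Real.rpow_nonneg (show 0 ≤ X ^ q by linarith) (-(k : ℝ)); positivity)
        (fun c' => ih (by omega) (X ^ q) hXq c' R hR)
      refine h8.trans ?_
      have h9 : 1 + 2 * T / Q ≤ (3 + n * 2 ^ (k + 1)) * (P / Q) := by
        have h10 : 1 ≤ P / Q := by
          rw [le_div_iff₀ hQ0]
          linarith
        have h11 : T ≤ (1 + n * 2 ^ k) * P := by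
          rw [hT]
          linarith
        have h12 : 2 * T / Q ≤ 2 * ((1 + n * 2 ^ k) * P) / Q := by gcongr
        have h13 : 2 * ((1 + n * 2 ^ k) * P) / Q = (2 + n * 2 ^ (k + 1)) * (P / Q) := by
          rw [show (2 : ℝ) ^ (k + 1) = 2 * 2 ^ k by ring]
          ring
        rw [h13] at h12
        linarith
      have eP : (X ^ q) ^ (-(k : ℝ)) * P = 1 := by
        rw [hP, ← Real.rpow_add (by linarith)]
        simp
      have hPm : 0 ≤ (X ^ q) ^ (-(k : ℝ)) := Real.rpow_nonneg (by linarith) _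
      calc Kc k M ^ n * (LL q (X ^ q) n * ((X ^ q) ^ (-(k : ℝ)) * R)) * (2 * X * (1 + 2 * T / Q))
          ≤ Kc k M ^ n * (LL q (X ^ q) n * ((X ^ q) ^ (-(k : ℝ)) * R)) * (2 * X * ((3 + n * 2 ^ (k + 1)) * (P / Q))) := by
            gcongr
        _ = (2 * (3 + n * 2 ^ (k + 1))) * (Kc k M ^ n * (LL q (X ^ q) n * (((X ^ q) ^ (-(k : ℝ)) * P) * R * (X / Q)))) := by ring
        _ = (2 * (3 + n * 2 ^ (k + 1))) * (Kc k M ^ n * (LL q (X ^ q) n * (R * (X / Q)))) := by rw [eP, one_mul]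
        _ ≤ Kc k M * (Kc k M ^ n * (LL q (X ^ q) n * (R * (X / Q)))) := by
            apply mul_le_mul_of_nonneg_right hKb
            positivity
        _ = Kc k M ^ (n + 1) * (LL q (X ^ q) n * ((X * (1 / Q)) * R)) := by ring
        _ = _ := by
            rw [← eX]
            ring

end Pool.Agent.J4H7.WR
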