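import Pool.Agent.J4H7.WR.A

set_option autoImplicit false

/-!
# Waring's problem for `n ^ k + ⌊n ^ g⌋`, all `g > 1`, part B (helper7)

Near-coincidences with different first digits.
-/

namespace Pool.Agent.J4H7.WR

open Real Set MeasureTheory Filter Topology
open Pool.Agent.J4H7.WE
open Pool.Agent.J4H7.WP

/-- the size condition -/
def CQ (q a b t : ℝ) (k m : ℕ) (u : ℝ) : Prop :=
  1 ≤ q * Real.log u ∧ t + m * (2 * (2 ^ k * u ^ (q ^ 2 * k))) ≤ 1 / 4 * u ^ ((k : ℝ) - 1) ∧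
  16 * (k * 2 ^ (k - 1)) ≤ q * u ^ ((1 - q) * (k - b)) ∧
  m * (2 ^ k * u ^ (q ^ 2 * b) * (Real.log u + 1)) ≤ k1 k / 4 * (u ^ (q * (a - k)) * u ^ ((k : ℝ) - 1)) ∧
  t ≤ u ^ (q * (a - k)) * u ^ ((k : ℝ) - 1)

lemma ev_CQ {q a b t : ℝ} {k m : ℕ} (hk : 2 ≤ k) (hq : 0 < q) (hq1 : q < 1) (hbk : b < k)
    (h1 : q ^ 2 * k < (k : ℝ) - 1) (h2 : q ^ 2 * b < (k : ℝ) - 1 - q * (k - a)) (h0 : 0 ≤ b) :
    ∀ᶠ u : ℝ in atTop, CQ q a b t k m u := by
  have hk' : (2 : ℝ) ≤ k := by exact_mod_cast hk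
  have hk1 := k1_pos hk
  have hqb : 0 ≤ q ^ 2 * b := by positivity
  have e1 : ∀ᶠ u : ℝ in atTop, 1 ≤ q * Real.log u :=
    (Real.tendsto_log_atTop.const_mul_atTop hq).eventually_ge_atTop 1
  have e2 : ∀ᶠ u : ℝ in atTop, 0 * Real.log u + t ≤ 1 / 8 * u ^ ((k : ℝ) - 1) := ev_log (by linarith) _ _ (by norm_num)
  have e3 : ∀ᶠ u : ℝ in atTop, 0 * Real.log u + m * (2 * 2 ^ k) ≤ 1 / 8 * u ^ ((k : ℝ) - 1 - q ^ 2 * k) :=
    ev_log (by linarith) _ _ (by norm_num)
  have e4 : ∀ᶠ u : ℝ in atTop, 16 * (k * 2 ^ (k - 1)) / q ≤ u ^ ((1 - q) * (k - b)) :=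
    (tendsto_rpow_atTop (mul_pos (by linarith) (by linarith))).eventually_ge_atTop _
  have e5 : ∀ᶠ u : ℝ in atTop, (m * 2 ^ k) * Real.log u + (m * 2 ^ k) ≤ k1 k / 4 * u ^ (q * (a - k) + ((k : ℝ) - 1) - q ^ 2 * b) :=
    ev_log (by linarith) _ _ (by positivity)
  have e6 : ∀ᶠ u : ℝ in atTop, t ≤ u ^ (q * (a - k) + ((k : ℝ) - 1)) :=
    (tendsto_rpow_atTop (by linarith)).eventually_ge_atTop _
  filter_upwards [e1, e2, e3, e4, e5, e6, eventually_ge_atTop 1] with u g1 g2 g3 g4 g5 g6 g7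
  have hu0 : (0 : ℝ) < u := by linarith
  have hP : 0 < u ^ (q ^ 2 * k) := Real.rpow_pos_of_pos hu0 _
  refine ⟨g1, ?_, ?_, ?_, ?_⟩
  · have e1 : u ^ ((k : ℝ) - 1 - q ^ 2 * k) * u ^ (q ^ 2 * k) = u ^ ((k : ℝ) - 1) := by
      rw [← Real.rpow_add hu0]
      congr 1
      ring
    have g7 : (m : ℝ) * (2 * (2 ^ k * u ^ (q ^ 2 * k))) ≤ 1 / 8 * u ^ ((k : ℝ) - 1) := by
      calc (m : ℝ) * (2 * (2 ^ k * u ^ (q ^ 2 * k))) = (m * (2 * 2 ^ k)) * u ^ (q ^ 2 * k) := by ring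
        _ ≤ (1 / 8 * u ^ ((k : ℝ) - 1 - q ^ 2 * k)) * u ^ (q ^ 2 * k) := by
          apply mul_le_mul_of_nonneg_right _ hP.le
          linarith
        _ = 1 / 8 * (u ^ ((k : ℝ) - 1 - q ^ 2 * k) * u ^ (q ^ 2 * k)) := by ring
        _ = _ := by rw [e1]
    linarith
  · rw [div_le_iff₀ hq] at g4
    linarith
  · have hP' : 0 < u ^ (q ^ 2 * b) := Real.rpow_pos_of_pos hu0 _
    have e1 : u ^ (q * (a - k) + ((k : ℝ) - 1) - q ^ 2 * b) * u ^ (q ^ 2 * b) = u ^ (q * (a - k)) * u ^ ((k : ℝ) - 1) := by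
      rw [← Real.rpow_add hu0, ← Real.rpow_add hu0]
      congr 1
      ring
    calc (m : ℝ) * (2 ^ k * u ^ (q ^ 2 * b) * (Real.log u + 1)) = ((m * 2 ^ k) * Real.log u + (m * 2 ^ k)) * u ^ (q ^ 2 * b) := by
          ring
      _ ≤ (k1 k / 4 * u ^ (q * (a - k) + ((k : ℝ) - 1) - q ^ 2 * b)) * u ^ (q ^ 2 * b) :=
          mul_le_mul_of_nonneg_right g5 hP'.le
      _ = k1 k / 4 * (u ^ (q * (a - k) + ((k : ℝ) - 1) - q ^ 2 * b) * u ^ (q ^ 2 * b)) := by ring
      _ = _ := by rw [e1]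
  · rw [← Real.rpow_add hu0]
    exact g6

/-- bounds for small levels -/
lemma small_lev2 {q X g b : ℝ} {k : ℕ} (hq : 0 < q) (hq1 : q < 1) (hX : 1 ≤ X) (hg0 : 0 ≤ g) (hgb : g ≤ b) (hbk : b ≤ k)
    {i : ℕ} (hi : 2 ≤ i) {x y : ℕ} (hx : x ∈ SS q X i) (hy : y ∈ SS q X i) :
    |((x : ℝ) ^ k - (y : ℝ) ^ k) + ((x : ℝ) ^ g - (y : ℝ) ^ g)| ≤ 2 * (2 ^ k * X ^ (q ^ 2 * k)) ∧
    |(x : ℝ) ^ g - (y : ℝ) ^ g| ≤ 2 ^ k * X ^ (q ^ 2 * b) ∧
    |(x : ℝ) ^ g * Real.log x - (y : ℝ) ^ g * Real.log y| ≤ 2 ^ k * X ^ (q ^ 2 * b) * (Real.log X + 1) := by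
  have hl0 : lev q X 0 = X := by unfold lev; simp
  have hs := small_lev (k := k) (g := g) hq hq1 hX hg0 (by linarith) (i0 := 0) (i := i) (by omega) hx hy
  rw [hl0] at hs
  refine ⟨hs.1, ?_⟩
  have hX0 : 0 < X := by linarith
  have hb0 : 0 ≤ b := by linarith
  have hl1 : 1 ≤ lev q X i := one_le_lev hq.le hX _
  have hlu2 : lev q X i ≤ X ^ (q ^ 2) := by
    have : lev q X 2 = X ^ (q ^ 2) := rfl
    rw [← this]
    exact lev_anti hq hq1 hX hi
  have hlu : lev q X i ≤ X := by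
    have := lev_anti hq hq1 hX (Nat.zero_le i)
    rwa [hl0] at this
  set E : ℝ := 2 ^ k * X ^ (q ^ 2 * b) with hE
  have hE0 : 0 ≤ E := by positivity
  have key : ∀ z : ℕ, z ∈ SS q X i → 0 ≤ (z : ℝ) ^ g ∧ (z : ℝ) ^ g ≤ E ∧ 0 ≤ Real.log z ∧ Real.log z ≤ Real.log X + 1 := by
    intro z hz
    rw [mem_SS hX] at hz
    have hz1 : (1 : ℝ) ≤ z := hl1.trans hz.1
    refine ⟨Real.rpow_nonneg (by linarith) _, ?_, Real.log_nonneg hz1, ?_⟩
    · calc (z : ℝ) ^ g ≤ (z : ℝ) ^ b := Real.rpow_le_rpow_of_exponent_le hz1 hgb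
        _ ≤ (2 * X ^ (q ^ 2)) ^ b := Real.rpow_le_rpow (by linarith) (by linarith [hz.2]) hb0
        _ = 2 ^ b * X ^ (q ^ 2 * b) := by
          rw [Real.mul_rpow (by norm_num) (by positivity), ← Real.rpow_mul hX0.le]
        _ ≤ E := by
          rw [hE]
          apply mul_le_mul_of_nonneg_right _ (by positivity)
          rw [← Real.rpow_natCast]
          exact Real.rpow_le_rpow_of_exponent_le (by norm_num) hbk
    · have h1 : Real.log z ≤ Real.log (2 * X) := Real.log_le_log (by linarith) (by linarith [hz.2])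
      rw [Real.log_mul (by norm_num) (by linarith)] at h1
      have := Real.log_two_lt_d9
      linarith
  obtain ⟨a3, a4, a5, a6⟩ := key x hx
  obtain ⟨b3, b4, b5, b6⟩ := key y hy
  constructor
  · rw [abs_le]
    constructor <;> linarith
  · have c1 : (x : ℝ) ^ g * Real.log x ≤ E * (Real.log X + 1) := mul_le_mul a4 a6 a5 hE0
    have c2 : (y : ℝ) ^ g * Real.log y ≤ E * (Real.log X + 1) := mul_le_mul b4 b6 b5 hE0
    have c3 : 0 ≤ (x : ℝ) ^ g * Real.log x := mul_nonneg a3 a5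
    have c4 : 0 ≤ (y : ℝ) ^ g * Real.log y := mul_nonneg b3 b5
    rw [abs_le]
    constructor <;> linarith

/-- **the consequences of a near-coincidence with different first digits** -/
lemma lev0 {q X a b g t : ℝ} {k m n : ℕ} (hk : 2 ≤ k) (hq : 0 < q) (hq1 : q < 1) (hX : 1 ≤ X) (ha : 1 ≤ a) (hag : a ≤ g)
    (hgb : g ≤ b) (hbk : b < k) (ht : 0 ≤ t) (hnm : n + 1 ≤ m) (p : Fin (n + 1) → ℕ × ℕ)
    (hp : ∀ i : Fin (n + 1), (p i).1 ∈ SS q X i ∧ (p i).2 ∈ SS q X i)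
    (h1 : (p 0).2 < (p 0).1) (hc : CQ q a b t k m X) (hF : |FP k p g| ≤ t) :
    k1 k / 4 * (X ^ (q * (a - k)) * ((((p 0).1 : ℝ) - (p 0).2) * X ^ ((k : ℝ) - 1))) ≤ -(FD p g) ∧
    (((p 0).1 : ℝ) - (p 0).2) * X ^ ((k : ℝ) - 1) ≤ 3 * 2 ^ k * X ^ (q * k) ∧
    |AP k p| ≤ 6 * (k * 2 ^ (k - 1)) * ((((p 0).1 : ℝ) - (p 0).2) * X ^ ((k : ℝ) - 1) * X ^ (q * (b - k))) := by
  have hX0 : 0 < X := by linarith
  have hk' : (2 : ℝ) ≤ k := by exact_mod_cast hk
  have hg1 : 1 ≤ g := ha.trans hag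
  have hgk : g ≤ k := by linarith
  have hk1 := k1_pos hk
  have hk1' : k1 k ≤ 1 := by
    unfold k1
    rw [div_le_one (by positivity)]
    have : (1 : ℝ) ≤ 2 ^ (k - 1) := one_le_pow₀ (by norm_num)
    nlinarith
  have hl0 : lev q X 0 = X := by unfold lev; simp
  have hx0 := (mem_SS hX).1 (hp 0).1
  have hy0 := (mem_SS hX).1 (hp 0).2
  rw [show ((0 : Fin (n + 1)) : ℕ) = 0 from rfl, hl0] at hx0 hy0
  have hxy : ((p 0).2 : ℝ) + 1 ≤ (p 0).1 := by exact_mod_cast h1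
  obtain ⟨hc1, hc2, hc3, hc4, hc5⟩ := hc
  have hnm' : ((n + 1 : ℕ) : ℝ) ≤ m := by exact_mod_cast hnm
  set E : ℝ := 2 ^ k * X ^ (q ^ 2 * k) with hE
  have hE0 : 0 ≤ E := by positivity
  set E' : ℝ := 2 ^ k * X ^ (q ^ 2 * b) with hE'
  have hE'0 : 0 ≤ E' := by positivity
  have hlogu : 1 ≤ Real.log X := by nlinarith [Real.log_nonneg hX]
  -- the sequences
  set φ : Fin (n + 1) → ℝ := fun i => (((p i).1 : ℝ) ^ k - ((p i).2 : ℝ) ^ k) + (((p i).1 : ℝ) ^ g - ((p i).2 : ℝ) ^ g) with hφ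
  set ψ : Fin (n + 1) → ℝ := fun i => ((p i).1 : ℝ) ^ g * Real.log (p i).1 - ((p i).2 : ℝ) ^ g * Real.log (p i).2 with hψ
  set χ : Fin (n + 1) → ℝ := fun i => ((p i).1 : ℝ) ^ g - ((p i).2 : ℝ) ^ g with hχ
  have hFP : FP k p g = ∑ i, φ i := rfl
  have hFD : FD p g = ∑ i, ψ i := rfl
  have hFF : FF p g = ∑ i, χ i := rfl
  have hsm : ∀ i : Fin (n + 1), i ≠ 0 → (i : ℕ) ≠ 1 → |φ i| ≤ 2 * E ∧ |χ i| ≤ E' ∧ |ψ i| ≤ E' * (Real.log X + 1) := by
    intro i hi hi1
    have h2 : (i : ℕ) ≠ 0 := fun h => hi (Fin.ext h)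
    exact small_lev2 (k := k) hq hq1 hX (by linarith) hgb hbk.le (by omega) (hp i).1 (hp i).2
  -- level 0
  set H : ℝ := (((p 0).1 : ℝ) - (p 0).2) * X ^ ((k : ℝ) - 1) with hH
  set A0 : ℝ := ((p 0).1 : ℝ) ^ k - ((p 0).2 : ℝ) ^ k with hA0
  have hua0 : 0 < X ^ ((k : ℝ) - 1) := Real.rpow_pos_of_pos hX0 _
  have hHA : H ≤ A0 := by
    have := pow_diff (θ := (k : ℝ)) (Y := X) (x := ((p 0).1 : ℝ)) (y := ((p 0).2 : ℝ)) (by linarith) hX0 hy0.1 (by linarith)
    rw [Real.rpow_natCast, Real.rpow_natCast] at this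
    exact this
  have hAH : A0 ≤ (k * 2 ^ (k - 1)) * H := by
    have hy00 : (0 : ℝ) < (p 0).2 := by linarith
    have h2 := bern (θ := (k : ℝ)) (by linarith) hy00 (show ((p 0).2 : ℝ) ≤ (p 0).1 by linarith)
    rw [Real.rpow_natCast, Real.rpow_natCast] at h2
    have h3 : ((p 0).1 : ℝ) ^ ((k : ℝ) - 1) ≤ 2 ^ (k - 1) * X ^ ((k : ℝ) - 1) := by
      calc ((p 0).1 : ℝ) ^ ((k : ℝ) - 1) ≤ (2 * X) ^ ((k : ℝ) - 1) := Real.rpow_le_rpow (by linarith) hx0.2 (by linarith)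
        _ = 2 ^ ((k : ℝ) - 1) * X ^ ((k : ℝ) - 1) := Real.mul_rpow (by norm_num) hX0.le
        _ = _ := by
          congr 1
          rw [← Real.rpow_natCast 2 (k - 1), Nat.cast_sub (by omega)]
          simp
    calc A0 ≤ k * ((p 0).1 : ℝ) ^ ((k : ℝ) - 1) * (((p 0).1 : ℝ) - (p 0).2) := h2
      _ ≤ k * (2 ^ (k - 1) * X ^ ((k : ℝ) - 1)) * (((p 0).1 : ℝ) - (p 0).2) := by
        apply mul_le_mul_of_nonneg_right _ (by linarith)
        exact mul_le_mul_of_nonneg_left h3 (by linarith)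
      _ = _ := by rw [hH]; ring
  have hH1 : X ^ ((k : ℝ) - 1) ≤ H := by
    rw [hH]
    nlinarith
  have hA0p : 0 < A0 := by linarith
  have hB0 : 0 ≤ ((p 0).1 : ℝ) ^ g - ((p 0).2 : ℝ) ^ g :=
    sub_nonneg.2 (Real.rpow_le_rpow (by positivity) (by linarith) (by linarith))
  have hχ0 : χ 0 ≤ A0 * X ^ (g - k) :=
    cmp_upper (g := g) (u := X) (x := ((p 0).1 : ℝ)) (y := ((p 0).2 : ℝ)) (k := k) (by linarith) hgk hX0 hy0.1 (by linarith)
  have hφ0 : A0 ≤ φ 0 := by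
    simp only [hφ, hA0]
    linarith
  have hφ0' : φ 0 ≤ 2 * A0 := by
    have : X ^ (g - k) ≤ 1 := Real.rpow_le_one_of_one_le_of_nonpos hX (by linarith)
    have h2 : A0 * X ^ (g - k) ≤ A0 := by nlinarith
    have h3 : φ 0 = A0 + χ 0 := rfl
    linarith
  have hψ0 : ψ 0 ≤ 3 * Real.log X * (X ^ (g - k) * A0) := by
    have h2 := log_upper (θ := g) (Y := X) (x := ((p 0).1 : ℝ)) (y := ((p 0).2 : ℝ)) hg1 hX hy0.1 (by linarith) hx0.2
    simp only [hψ]
    calc ((p 0).1 : ℝ) ^ g * Real.log (p 0).1 - ((p 0).2 : ℝ) ^ g * Real.log (p 0).2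
        ≤ (Real.log X + 2) * (((p 0).1 : ℝ) ^ g - ((p 0).2 : ℝ) ^ g) := h2
      _ ≤ (3 * Real.log X) * (((p 0).1 : ℝ) ^ g - ((p 0).2 : ℝ) ^ g) := mul_le_mul_of_nonneg_right (by linarith) hB0
      _ ≤ (3 * Real.log X) * (A0 * X ^ (g - k)) := mul_le_mul_of_nonneg_left hχ0 (by linarith)
      _ = _ := by ring
  have hmE : ((n + 1 : ℕ) : ℝ) * (2 * E) ≤ m * (2 * E) := mul_le_mul_of_nonneg_right hnm' (by positivity)
  have hmE' : ((n + 1 : ℕ) : ℝ) * E' ≤ m * E' := mul_le_mul_of_nonneg_right hnm' hE'0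
  have hmE'' : ((n + 1 : ℕ) : ℝ) * (E' * (Real.log X + 1)) ≤ m * (E' * (Real.log X + 1)) :=
    mul_le_mul_of_nonneg_right hnm' (by positivity)
  by_cases hex : ∃ i : Fin (n + 1), (i : ℕ) = 1 ∧ (p i).1 < (p i).2
  · obtain ⟨i1, hi1, hlt⟩ := hex
    have hne : (0 : Fin (n + 1)) ≠ i1 := by
      intro h
      have := congrArg Fin.val h
      rw [hi1] at this
      exact absurd this (by simp)
    have hlev : lev q X i1 = X ^ q := by
      rw [hi1]
      unfold lev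
      simp
    set w : ℝ := X ^ q with hw
    have hw1 : 1 ≤ w := Real.one_le_rpow hX hq.le
    have hw0 : 0 < w := by linarith
    have hlogw : Real.log w = q * Real.log X := Real.log_rpow hX0 _
    have hx1 := (mem_SS hX).1 (hp i1).1
    have hy1 := (mem_SS hX).1 (hp i1).2
    rw [hlev] at hx1 hy1
    have hlt' : ((p i1).1 : ℝ) ≤ (p i1).2 := by exact_mod_cast hlt.le
    set A1 : ℝ := ((p i1).2 : ℝ) ^ k - ((p i1).1 : ℝ) ^ k with hA1
    have hA1n : 0 ≤ A1 := sub_nonneg.2 (pow_le_pow_left₀ (by positivity) hlt' k)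
    have hB1 := cmp_upper (g := g) (u := w) (x := ((p i1).2 : ℝ)) (y := ((p i1).1 : ℝ)) (k := k) (by linarith) hgk hw0 hx1.1 hlt'
    have hB1n : 0 ≤ ((p i1).2 : ℝ) ^ g - ((p i1).1 : ℝ) ^ g :=
      sub_nonneg.2 (Real.rpow_le_rpow (by positivity) hlt' (by linarith))
    have hwg1 : w ^ (g - k) ≤ 1 := Real.rpow_le_one_of_one_le_of_nonpos hw1 (by linarith)
    have hB1' : ((p i1).2 : ℝ) ^ g - ((p i1).1 : ℝ) ^ g ≤ A1 := by
      refine hB1.trans ?_
      nlinarith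
    have hφ1 : -(2 * A1) ≤ φ i1 := by
      simp only [hφ]
      linarith
    have hφ1' : φ i1 ≤ -A1 := by
      simp only [hφ]
      linarith
    -- A1 is large
    have t1 := two_term φ 0 i1 hne (e := 2 * E) (by positivity) (fun i h h' => (hsm i h (by
      intro h2
      exact h' (Fin.ext (by omega)))).1)
    rw [← hFP] at t1
    have h7 : t + m * (2 * E) ≤ 1 / 4 * A0 := by
      refine hc2.trans ?_
      linarith
    have hA1l : 3 / 8 * A0 ≤ A1 := by
      have h2 := (abs_le.1 t1).2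
      have h3 := (abs_le.1 t1).1
      have h4 := (abs_le.1 hF).2
      have h5 := (abs_le.1 hF).1
      linarith
    have hA1u : A1 ≤ 9 / 4 * A0 := by
      have h2 := (abs_le.1 t1).2
      have h3 := (abs_le.1 t1).1
      have h4 := (abs_le.1 hF).2
      have h5 := (abs_le.1 hF).1
      linarith
    -- the derivative at level 1
    have hψ1 : k1 k * (Real.log w * (w ^ (g - k) * A0)) ≤ -(ψ i1) := by
      have h2 := log_lower (θ := g) (Y := w) (x := ((p i1).2 : ℝ)) (y := ((p i1).1 : ℝ)) (by linarith) hw1 hx1.1 hlt'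
      have h3 := cmp_lower (g := g) (w := w) (x := ((p i1).1 : ℝ)) (y := ((p i1).2 : ℝ)) (k := k) (by omega) hg1 hw0 hx1.1 hlt'
        hy1.2
      have hlw : 0 ≤ Real.log w := Real.log_nonneg hw1
      have hwg : 0 < w ^ (g - k) := Real.rpow_pos_of_pos hw0 _
      have hkk : 0 < (k : ℝ) * 2 ^ (k - 1) := by positivity
      have e1 : -(ψ i1) = ((p i1).2 : ℝ) ^ g * Real.log (p i1).2 - ((p i1).1 : ℝ) ^ g * Real.log (p i1).1 := by
        simp only [hψ]
        ring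
      rw [e1]
      calc k1 k * (Real.log w * (w ^ (g - k) * A0))
          = Real.log w * ((3 / 8 * A0) * (w ^ (g - k) / (k * 2 ^ (k - 1)))) := by
            unfold k1
            field_simp
        _ ≤ Real.log w * (A1 * (w ^ (g - k) / (k * 2 ^ (k - 1)))) := by
            apply mul_le_mul_of_nonneg_left _ hlw
            exact mul_le_mul_of_nonneg_right hA1l (by positivity)
        _ ≤ Real.log w * (((p i1).2 : ℝ) ^ g - ((p i1).1 : ℝ) ^ g) := mul_le_mul_of_nonneg_left h3 hlw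
        _ ≤ _ := h2
    -- the sum
    have t2 := two_term ψ 0 i1 hne (e := E' * (Real.log X + 1)) (by positivity) (fun i h h' => (hsm i h (by
      intro h2
      exact h' (Fin.ext (by omega)))).2.2)
    rw [← hFD] at t2
    have t3 := (abs_le.1 t2).2
    set Q : ℝ := k1 k * (Real.log w * (w ^ (g - k) * A0)) with hQ
    have hψ0' : ψ 0 ≤ Q / 2 := by
      refine hψ0.trans ?_
      have h2 : X ^ ((1 - q) * ((k : ℝ) - g)) * X ^ (g - k) = w ^ (g - k) := by
        rw [hw, ← Real.rpow_mul hX0.le, ← Real.rpow_add hX0]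
        congr 1
        ring
      have h3 : X ^ ((1 - q) * ((k : ℝ) - b)) ≤ X ^ ((1 - q) * ((k : ℝ) - g)) := by
        apply Real.rpow_le_rpow_of_exponent_le hX
        apply mul_le_mul_of_nonneg_left (by linarith) (by linarith)
      have h4 : 16 * (k * 2 ^ (k - 1)) ≤ q * X ^ ((1 - q) * ((k : ℝ) - g)) := hc3.trans (mul_le_mul_of_nonneg_left h3 hq.le)
      have hug : 0 < X ^ (g - k) := Real.rpow_pos_of_pos hX0 _
      have hkk : 0 < (k : ℝ) * 2 ^ (k - 1) := by positivity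
      have h5 : 6 ≤ k1 k * (q * X ^ ((1 - q) * ((k : ℝ) - g))) := by
        calc (6 : ℝ) = k1 k * (16 * (k * 2 ^ (k - 1))) := by
              unfold k1
              field_simp
              norm_num
          _ ≤ _ := mul_le_mul_of_nonneg_left h4 hk1.le
      have h6 : 0 ≤ Real.log X * (X ^ (g - k) * A0) / 2 := by positivity
      calc 3 * Real.log X * (X ^ (g - k) * A0) = 6 * (Real.log X * (X ^ (g - k) * A0) / 2) := by ring
        _ ≤ (k1 k * (q * X ^ ((1 - q) * ((k : ℝ) - g)))) * (Real.log X * (X ^ (g - k) * A0) / 2) :=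
            mul_le_mul_of_nonneg_right h5 h6
        _ = k1 k * ((q * Real.log X) * ((X ^ ((1 - q) * ((k : ℝ) - g)) * X ^ (g - k)) * A0)) / 2 := by ring
        _ = Q / 2 := by rw [h2, hQ, hlogw]
    have hwa : w ^ (a - k) = X ^ (q * (a - k)) := by
      rw [hw, ← Real.rpow_mul hX0.le]
    have hwb : w ^ (b - k) = X ^ (q * (b - k)) := by
      rw [hw, ← Real.rpow_mul hX0.le]
    have hQl : k1 k * (X ^ (q * (a - k)) * A0) ≤ Q := by
      rw [hQ]
      apply mul_le_mul_of_nonneg_left _ hk1.le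
      rw [← hwa]
      have h2 : w ^ (a - k) ≤ w ^ (g - k) := Real.rpow_le_rpow_of_exponent_le hw1 (by linarith)
      have h3 : 0 < w ^ (g - k) := Real.rpow_pos_of_pos hw0 _
      have h4 : 1 ≤ Real.log w := by rw [hlogw]; exact hc1
      calc w ^ (a - k) * A0 ≤ w ^ (g - k) * A0 := mul_le_mul_of_nonneg_right h2 hA0p.le
        _ = 1 * (w ^ (g - k) * A0) := (one_mul _).symm
        _ ≤ _ := mul_le_mul_of_nonneg_right h4 (by positivity)
    have huq : 0 < X ^ (q * (a - k)) := Real.rpow_pos_of_pos hX0 _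
    have huA : X ^ (q * (a - k)) * X ^ ((k : ℝ) - 1) ≤ X ^ (q * (a - k)) * A0 :=
      mul_le_mul_of_nonneg_left (by linarith) huq.le
    have hrest : m * (E' * (Real.log X + 1)) ≤ Q / 4 := by
      calc m * (E' * (Real.log X + 1)) ≤ k1 k / 4 * (X ^ (q * (a - k)) * X ^ ((k : ℝ) - 1)) := hc4
        _ ≤ k1 k / 4 * (X ^ (q * (a - k)) * A0) := mul_le_mul_of_nonneg_left huA (by positivity)
        _ ≤ Q / 4 := by linarith
    refine ⟨?_, ?_, ?_⟩
    · calc k1 k / 4 * (X ^ (q * (a - k)) * H) ≤ k1 k / 4 * (X ^ (q * (a - k)) * A0) := by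
            apply mul_le_mul_of_nonneg_left _ (by positivity)
            exact mul_le_mul_of_nonneg_left hHA huq.le
        _ ≤ Q / 4 := by linarith
        _ ≤ -(FD p g) := by linarith
    · have h2 : A1 ≤ 2 ^ k * X ^ (q * k) := by
        have h3 : ((p i1).2 : ℝ) ^ k ≤ 2 ^ k * X ^ (q * k) := by
          have h4 : X ^ (q * (k : ℝ)) = w ^ k := by
            rw [hw, Real.rpow_mul hX0.le, Real.rpow_natCast]
          rw [h4, ← mul_pow]
          exact pow_le_pow_left₀ (by positivity) hy1.2 k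
        have h5 : (0 : ℝ) ≤ ((p i1).1 : ℝ) ^ k := by positivity
        linarith
      have h6 : (0 : ℝ) ≤ 2 ^ k * X ^ (q * k) := by
        have := Real.rpow_nonneg hX0.le (q * k)
        positivity
      linarith
    · -- the form with exponent k
      have t4 := two_term χ 0 i1 hne (e := E') hE'0 (fun i h h' => (hsm i h (by
        intro h2
        exact h' (Fin.ext (by omega)))).2.1)
      rw [← hFF] at t4
      have hXb : 0 < X ^ (q * (b - k)) := Real.rpow_pos_of_pos hX0 _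
      have hab : X ^ (q * (a - k)) ≤ X ^ (q * (b - k)) := by
        apply Real.rpow_le_rpow_of_exponent_le hX
        exact mul_le_mul_of_nonneg_left (by linarith) hq.le
      have c1 : |χ 0| ≤ A0 * X ^ (q * (b - k)) := by
        have h2 : 0 ≤ χ 0 := hB0
        rw [abs_of_nonneg h2]
        refine hχ0.trans ?_
        apply mul_le_mul_of_nonneg_left _ hA0p.le
        apply Real.rpow_le_rpow_of_exponent_le hX
        nlinarith [mul_nonneg (sub_nonneg.2 hq1.le) (sub_nonneg.2 hgk), mul_nonneg hq.le (sub_nonneg.2 hgb)]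
      have c2 : |χ i1| ≤ (9 / 4 * A0) * X ^ (q * (b - k)) := by
        have h2 : χ i1 = -(((p i1).2 : ℝ) ^ g - ((p i1).1 : ℝ) ^ g) := by
          simp only [hχ]
          ring
        rw [h2, abs_neg, abs_of_nonneg hB1n]
        refine hB1.trans ?_
        apply mul_le_mul hA1u _ (Real.rpow_nonneg hw0.le _) (by positivity)
        rw [← hwb]
        exact Real.rpow_le_rpow_of_exponent_le hw1 (by linarith)
      have c3 : t ≤ A0 * X ^ (q * (b - k)) := by
        calc t ≤ X ^ (q * (a - k)) * X ^ ((k : ℝ) - 1) := hc5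
          _ ≤ X ^ (q * (a - k)) * A0 := huA
          _ ≤ X ^ (q * (b - k)) * A0 := mul_le_mul_of_nonneg_right hab hA0p.le
          _ = _ := by ring
      have c4 : m * E' ≤ A0 * X ^ (q * (b - k)) := by
        calc m * E' = m * (E' * 1) := by ring
          _ ≤ m * (E' * (Real.log X + 1)) := by
            apply mul_le_mul_of_nonneg_left _ (Nat.cast_nonneg m)
            apply mul_le_mul_of_nonneg_left _ hE'0
            linarith
          _ ≤ k1 k / 4 * (X ^ (q * (a - k)) * X ^ ((k : ℝ) - 1)) := hc4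
          _ ≤ 1 * (X ^ (q * (a - k)) * A0) := by
            apply mul_le_mul _ huA (by positivity) (by norm_num)
            linarith
          _ ≤ A0 * X ^ (q * (b - k)) := by
            rw [one_mul, mul_comm]
            exact mul_le_mul_of_nonneg_left hab hA0p.le
      have c5 : |FF p g| ≤ m * E' + |χ 0| + |χ i1| := by
        have h2 : FF p g = (FF p g - (χ 0 + χ i1)) + (χ 0 + χ i1) := by ring
        rw [h2]
        refine (abs_add_le _ _).trans ?_
        have := abs_add_le (χ 0) (χ i1)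
        linarith
      have c6 : AP k p = FP k p g - FF p g := by
        rw [FP_eq]
        unfold AP
        ring
      have c7 : |AP k p| ≤ 6 * (A0 * X ^ (q * (b - k))) := by
        rw [c6]
        refine (abs_sub _ _).trans ?_
        have h2 : 0 ≤ A0 * X ^ (q * (b - k)) := by positivity
        linarith
      calc |AP k p| ≤ 6 * (A0 * X ^ (q * (b - k))) := c7
        _ ≤ 6 * (((k * 2 ^ (k - 1)) * H) * X ^ (q * (b - k))) := by
          apply mul_le_mul_of_nonneg_left _ (by norm_num)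
          exact mul_le_mul_of_nonneg_right hAH hXb.le
        _ = _ := by ring
  · -- impossible
    exfalso
    push Not at hex
    have hge : A0 - m * (2 * E) ≤ FP k p g := by
      by_cases hex2 : ∃ i : Fin (n + 1), (i : ℕ) = 1
      · obtain ⟨i1, hi1⟩ := hex2
        have hne : (0 : Fin (n + 1)) ≠ i1 := by
          intro h
          have := congrArg Fin.val h
          rw [hi1] at this
          exact absurd this (by simp)
        have hle := hex i1 hi1
        have hle' : ((p i1).2 : ℝ) ≤ (p i1).1 := by exact_mod_cast hle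
        have t1 := two_term φ 0 i1 hne (e := 2 * E) (by positivity) (fun i h h' => (hsm i h (by
          intro h2
          exact h' (Fin.ext (by omega)))).1)
        rw [← hFP] at t1
        have h2 : 0 ≤ φ i1 := by
          simp only [hφ]
          have g1 : ((p i1).2 : ℝ) ^ k ≤ ((p i1).1 : ℝ) ^ k := pow_le_pow_left₀ (by positivity) hle' k
          have g2 : ((p i1).2 : ℝ) ^ g ≤ ((p i1).1 : ℝ) ^ g := Real.rpow_le_rpow (by positivity) hle' (by linarith)
          linarith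
        have h3 := (abs_le.1 t1).1
        linarith
      · push Not at hex2
        have t1 := one_term φ 0 (e := 2 * E) (by positivity) (fun i h => (hsm i h (hex2 i)).1)
        rw [← hFP] at t1
        have h3 := (abs_le.1 t1).1
        linarith
    have h4 := (abs_le.1 hF).2
    linarith

end Pool.Agent.J4H7.WR
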