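import Pool.Agent.J4H7.WR.B

set_option autoImplicit false

/-!
# Waring's problem for `n ^ k + ⌊n ^ g⌋`, all `g > 1`, part C (helper7)

The optimal mean value for almost every exponent `g`.
-/

namespace Pool.Agent.J4H7.WR

open Real Set MeasureTheory Filter Topology
open Pool.Agent.J4H7.WE
open Pool.Agent.J4H7.WP

lemma EP_subset (k : ℕ) {n : ℕ} (a b t : ℝ) (p : Fin n → ℕ × ℕ) : EP k a b t p ⊆ Icc a b := fun _ h => h.1

lemma EP_ne_top (k : ℕ) {n : ℕ} (a b t : ℝ) (p : Fin n → ℕ × ℕ) : volume (EP k a b t p) ≠ ⊤ := by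
  refine ne_top_of_le_ne_top ?_ (measure_mono (EP_subset k a b t p))
  rw [Real.volume_Icc]
  exact ENNReal.ofReal_ne_top

/-- the measure -/
noncomputable def vr (k : ℕ) (a b t : ℝ) {n : ℕ} (p : Fin n → ℕ × ℕ) : ℝ := volume.real (EP k a b t p)

lemma vr_nonneg (k : ℕ) (a b t : ℝ) {n : ℕ} (p : Fin n → ℕ × ℕ) : 0 ≤ vr k a b t p := measureReal_nonneg

lemma vr_le (k : ℕ) {a b : ℝ} (hab : a ≤ b) (t : ℝ) {n : ℕ} (p : Fin n → ℕ × ℕ) : vr k a b t p ≤ b - a := by
  unfold vr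
  have h1 := measureReal_mono (μ := volume) (EP_subset k a b t p) (by rw [Real.volume_Icc]; exact ENNReal.ofReal_ne_top)
  rw [Real.volume_real_Icc_of_le hab] at h1
  exact h1

lemma vr_le_of {k : ℕ} {a b t D : ℝ} {n : ℕ} {p : Fin n → ℕ × ℕ} (hD : 0 ≤ D) (h : volume (EP k a b t p) ≤ ENNReal.ofReal D) :
    vr k a b t p ≤ D := by
  unfold vr
  exact ENNReal.toReal_le_of_le_ofReal hD h

lemma FP_cons (k : ℕ) {n : ℕ} (z : ℕ × ℕ) (p : Fin n → ℕ × ℕ) (g : ℝ) :
    FP k (Fin.cons z p : Fin (n + 1) → ℕ × ℕ) g = (((z.1 : ℝ) ^ k - (z.2 : ℝ) ^ k) + ((z.1 : ℝ) ^ g - (z.2 : ℝ) ^ g)) + FP k p g := by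
  unfold FP
  rw [Fin.sum_univ_succ]
  simp

lemma vr_cons_eq (k : ℕ) (a b t : ℝ) {n : ℕ} (z : ℕ × ℕ) (hz : z.1 = z.2) (p : Fin n → ℕ × ℕ) :
    vr k a b t (Fin.cons z p : Fin (n + 1) → ℕ × ℕ) = vr k a b t p := by
  unfold vr EP
  congr 1
  ext g
  simp only [mem_ofPred_eq]
  rw [FP_cons, hz]
  simp

lemma AP_swap (k : ℕ) {m : ℕ} (p : Fin m → ℕ × ℕ) : AP k (fun i => (p i).swap) = -AP k p := by
  unfold AP
  rw [← Finset.sum_neg_distrib]
  refine Finset.sum_congr rfl fun i _ => ?_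
  simp only [Prod.fst_swap, Prod.snd_swap]
  ring

/-- the measure for different first digits -/
lemma vr_ne {q X a b t : ℝ} {k m n : ℕ} (hk : 2 ≤ k) (hq : 0 < q) (hq1 : q < 1) (hX : 1 ≤ X) (ha : 1 ≤ a)
    (hbk : b < k) (ht : 0 ≤ t) (hnm : n + 1 ≤ m) (p : Fin (n + 1) → ℕ × ℕ)
    (hp : p ∈ PPs q X (n + 1)) (h1 : (p 0).1 ≠ (p 0).2) (hc : CQ q a b t k m X) :
    vr k a b t p ≤ 8 * t / k1 k / (|((p 0).1 : ℝ) - (p 0).2| * (X ^ (q * (a - k)) * X ^ ((k : ℝ) - 1))) ∧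
    (vr k a b t p ≠ 0 → |((p 0).1 : ℝ) - (p 0).2| * X ^ ((k : ℝ) - 1) ≤ 3 * 2 ^ k * X ^ (q * k) ∧
      |AP k p| ≤ 6 * (k * 2 ^ (k - 1)) * (|((p 0).1 : ℝ) - (p 0).2| * (X ^ ((k : ℝ) - 1) * X ^ (q * (b - k))))) := by
  have hk1 := k1_pos hk
  have hX0 : 0 < X := by linarith
  rw [mem_PPs] at hp
  have main : ∀ p : Fin (n + 1) → ℕ × ℕ, (∀ i : Fin (n + 1), (p i).1 ∈ SS q X i ∧ (p i).2 ∈ SS q X i) →
      (p 0).2 < (p 0).1 →
      vr k a b t p ≤ 8 * t / k1 k / (|((p 0).1 : ℝ) - (p 0).2| * (X ^ (q * (a - k)) * X ^ ((k : ℝ) - 1))) ∧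
      (vr k a b t p ≠ 0 → |((p 0).1 : ℝ) - (p 0).2| * X ^ ((k : ℝ) - 1) ≤ 3 * 2 ^ k * X ^ (q * k) ∧
        |AP k p| ≤ 6 * (k * 2 ^ (k - 1)) * (|((p 0).1 : ℝ) - (p 0).2| * (X ^ ((k : ℝ) - 1) * X ^ (q * (b - k))))) := by
    intro p hp h1
    have hp1 : ∀ i, 1 ≤ (p i).1 ∧ 1 ≤ (p i).2 := by
      intro i
      have g1 := (mem_SS hX).1 (hp i).1
      have g2 := (mem_SS hX).1 (hp i).2
      have g3 := one_le_lev hq.le hX (i : ℕ)
      constructor
      · exact_mod_cast g3.trans g1.1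
      · exact_mod_cast g3.trans g2.1
    have hlt : ((p 0).2 : ℝ) < (p 0).1 := by exact_mod_cast h1
    have hh : 0 < ((p 0).1 : ℝ) - (p 0).2 := by linarith
    have hP1 : 0 < X ^ (q * (a - k)) := Real.rpow_pos_of_pos hX0 _
    have hP2 : 0 < X ^ ((k : ℝ) - 1) := Real.rpow_pos_of_pos hX0 _
    set D : ℝ := k1 k / 4 * (X ^ (q * (a - k)) * ((((p 0).1 : ℝ) - (p 0).2) * X ^ ((k : ℝ) - 1))) with hD
    have hD0 : 0 < D := by positivity
    rw [abs_of_pos hh]
    constructor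
    · have e2 : 8 * t / k1 k / ((((p 0).1 : ℝ) - (p 0).2) * (X ^ (q * (a - k)) * X ^ ((k : ℝ) - 1))) = 2 * t / D := by
        rw [hD]
        field_simp
        ring
      rw [e2]
      apply vr_le_of (by positivity)
      unfold EP
      have e0 : {g | g ∈ Icc a b ∧ |FP k p g| ≤ t} = {g | g ∈ Icc a b ∧ |-(FP k p g)| ≤ t} := by
        ext g
        simp
      rw [e0]
      exact sub_vol (F := fun g => -(FP k p g)) (F' := fun g => -(FD p g)) (fun x _ => (FP_deriv k p hp1 x).neg) hD0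
        fun x hx hx2 => by
          rw [abs_neg] at hx2
          exact (lev0 hk hq hq1 hX ha hx.1 hx.2 hbk ht hnm p hp h1 hc hx2).1
    · intro hne
      have hnonempty : (EP k a b t p).Nonempty := by
        by_contra hemp
        rw [Set.not_nonempty_iff_eq_empty] at hemp
        apply hne
        unfold vr
        rw [hemp]
        simp
      obtain ⟨g, hg1, hg2⟩ := hnonempty
      have h3 := lev0 hk hq hq1 hX ha hg1.1 hg1.2 hbk ht hnm p hp h1 hc hg2
      refine ⟨h3.2.1, ?_⟩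
      rw [← mul_assoc (((p 0).1 : ℝ) - (p 0).2)]
      exact h3.2.2
  rcases lt_or_gt_of_ne h1 with h2 | h2
  · have h3 := main (fun i => (p i).swap) (fun i => ⟨(hp i).2, (hp i).1⟩) h2
    have e1 : vr k a b t (fun i => (p i).swap) = vr k a b t p := by
      unfold vr EP
      simp only [FP_swap, abs_neg]
    simp only [e1, AP_swap, abs_neg, Prod.fst_swap, Prod.snd_swap] at h3
    rw [abs_sub_comm] at h3
    exact h3
  · exact main p hp h2

/-- the sum of the measures -/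
noncomputable def UU (q X a b t : ℝ) (k n : ℕ) : ℝ := ∑ p ∈ PPs q X n, vr k a b t p

/-- pairs with close components -/
lemma close_pairs {q X T : ℝ} (hq : 0 < q) (hX : 1 ≤ X) (hT : 0 ≤ T) :
    (∑ z ∈ SS q X 0 ×ˢ SS q X 0, if |(z.1 : ℝ) - z.2| ≤ T then (1 : ℝ) else 0) ≤ 2 * X * (1 + 2 * T) := by
  rw [Finset.sum_product]
  have h5 : ∀ x ∈ SS q X 0, (∑ y ∈ SS q X 0, if |(x : ℝ) - y| ≤ T then (1 : ℝ) else 0) ≤ 1 + 2 * T := by
    intro x _
    rw [← Finset.sum_filter, Finset.sum_const, nsmul_eq_mul, mul_one]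
    refine card_close _ (by positivity) ?_
    intro y hy y' hy' _
    have h1 := (abs_le.1 (Finset.mem_filter.1 hy).2)
    have h2 := (abs_le.1 (Finset.mem_filter.1 hy').2)
    linarith [h1.1, h1.2, h2.1, h2.2]
  refine (Finset.sum_le_sum h5).trans ?_
  rw [Finset.sum_const, nsmul_eq_mul]
  have h6 := SS_card hq.le hX 0
  have h4 : lev q X 0 = X := by unfold lev; simp
  rw [h4] at h6
  exact mul_le_mul_of_nonneg_right h6 (by positivity)

/-- **the contribution of different first digits** -/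
lemma WW_le {q X a b t : ℝ} {k m n : ℕ} (hk : 2 ≤ k) (hq : 0 < q) (hq1 : q < 1) (hB : (1 - q) * k ≤ 1) (hX : 1 ≤ X)
    (ha : 1 ≤ a) (hbk : b < k) (ht : 0 ≤ t) (hnm : n + 1 ≤ m) (hc : CQ q a b t k m X) :
    ∑ z ∈ SS q X 0 ×ˢ SS q X 0, (if z.1 = z.2 then 0 else
      ∑ p ∈ PPs q (X ^ q) n, vr k a b t (Fin.cons z p : Fin (n + 1) → ℕ × ℕ)) ≤
      (2 * (1 + 6 * 2 ^ k) * (8 * t / k1 k) * Kc k m ^ n * (6 * (k * 2 ^ (k - 1)) + 1)) *
        (LL q X (n + 1) * (X ^ (-(k : ℝ)) * (X ^ (q * (b - a)) + X ^ (k * q ^ (n + 1) - ((k : ℝ) - 1 - q * (k - a)))))) := by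
  have hk' : (2 : ℝ) ≤ k := by exact_mod_cast hk
  have hk1 := k1_pos hk
  have hX0 : 0 < X := by linarith
  have hXq : 1 ≤ X ^ q := Real.one_le_rpow hX hq.le
  set P1 : ℝ := X ^ ((k : ℝ) - 1) with hP1
  set Pa : ℝ := X ^ (q * (a - k)) with hPa
  set Pb : ℝ := X ^ (q * (b - k)) with hPb
  set Pk : ℝ := X ^ (q * (k : ℝ)) with hPk
  have hP10 : 0 < P1 := Real.rpow_pos_of_pos hX0 _
  have hPa0 : 0 < Pa := Real.rpow_pos_of_pos hX0 _
  have hPb0 : 0 < Pb := Real.rpow_pos_of_pos hX0 _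
  have hPk0 : 0 < Pk := Real.rpow_pos_of_pos hX0 _
  set c1 : ℝ := 6 * (k * 2 ^ (k - 1)) with hc1
  have hc10 : 0 < c1 := by positivity
  set Lk : ℝ := (lev q (X ^ q) n) ^ (k : ℝ) with hLk
  have hLk0 : 0 < Lk := Real.rpow_pos_of_pos (lev_pos hXq n) _
  set T : ℝ := 3 * 2 ^ k * Pk / P1 with hT
  have hT0 : 0 < T := by positivity
  set G : ℝ := (8 * t / k1 k) * (Kc k m ^ n * (LL q (X ^ q) n * ((X ^ q) ^ (-(k : ℝ)) * (c1 * (P1 * Pb) / (Pa * P1) + Lk / (Pa * P1))))) with hG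
  have hKc := Kc_ge k m
  have hLL := LL_nonneg q (X ^ q) n
  have hXqk : 0 < (X ^ q) ^ (-(k : ℝ)) := Real.rpow_pos_of_pos (by linarith) _
  have hG0 : 0 ≤ G := by positivity
  -- one pair
  have hz : ∀ z ∈ SS q X 0 ×ˢ SS q X 0, (if z.1 = z.2 then 0 else
      ∑ p ∈ PPs q (X ^ q) n, vr k a b t (Fin.cons z p : Fin (n + 1) → ℕ × ℕ)) ≤
      G * (if |(z.1 : ℝ) - z.2| ≤ T then (1 : ℝ) else 0) := by
    intro z hz
    by_cases hzz : z.1 = z.2
    · rw [if_pos hzz]
      split_ifs <;> simp [hG0]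
    rw [if_neg hzz]
    have hd1 : (1 : ℝ) ≤ |(z.1 : ℝ) - z.2| := by
      have h1 : (1 : ℤ) ≤ |(z.1 : ℤ) - z.2| := Int.one_le_abs (sub_ne_zero.2 (by exact_mod_cast hzz))
      have h2 : ((1 : ℤ) : ℝ) ≤ ((|(z.1 : ℤ) - z.2| : ℤ) : ℝ) := by exact_mod_cast h1
      push_cast at h2
      exact h2
    set d : ℝ := |(z.1 : ℝ) - z.2| with hd
    have hmem : ∀ p ∈ PPs q (X ^ q) n, (Fin.cons z p : Fin (n + 1) → ℕ × ℕ) ∈ PPs q X (n + 1) := by
      intro p hp
      rw [mem_PPs] at hp ⊢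
      rw [Finset.mem_product] at hz
      intro i
      refine Fin.cases ?_ (fun i => ?_) i
      · simpa using hz
      · rw [Fin.cons_succ, Fin.val_succ, SS_succ' hX]
        exact hp i
    have hv : ∀ p ∈ PPs q (X ^ q) n, _ := fun p hp => vr_ne (a := a) (b := b) (t := t) (m := m) hk hq hq1 hX ha hbk ht hnm _ (hmem p hp)
      (by simpa using hzz) hc
    by_cases hdT : d ≤ T
    · rw [if_pos hdT, mul_one]
      set R : ℝ := c1 * (d * (P1 * Pb)) + Lk with hR
      have h1 : ∀ p ∈ PPs q (X ^ q) n, vr k a b t (Fin.cons z p : Fin (n + 1) → ℕ × ℕ) ≤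
          (8 * t / k1 k / (d * (Pa * P1))) * (if |((z.1 : ℝ) ^ k - (z.2 : ℝ) ^ k) + AP k p| ≤ R then (1 : ℝ) else 0) := by
        intro p hp
        obtain ⟨v1, v2⟩ := hv p hp
        simp only [Fin.cons_zero] at v1 v2
        by_cases h2 : |((z.1 : ℝ) ^ k - (z.2 : ℝ) ^ k) + AP k p| ≤ R
        · rw [if_pos h2, mul_one]
          exact v1
        · rw [if_neg h2, mul_zero]
          apply le_of_eq
          by_contra hne
          apply h2
          have h3 := (v2 hne).2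
          rw [AP_cons] at h3
          refine h3.trans ?_
          rw [hR]
          linarith
      have hRl : (lev q (X ^ q) n) ^ (k : ℝ) ≤ R := by
        have h5 : 0 ≤ c1 * (d * (P1 * Pb)) := by positivity
        rw [hR]
        linarith
      have h2 := NPs_le hk hq hq1 hB m n (by omega) (X ^ q) hXq ((z.1 : ℝ) ^ k - (z.2 : ℝ) ^ k) R hRl
      calc ∑ p ∈ PPs q (X ^ q) n, vr k a b t (Fin.cons z p : Fin (n + 1) → ℕ × ℕ)
          ≤ ∑ p ∈ PPs q (X ^ q) n, (8 * t / k1 k / (d * (Pa * P1))) *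
              (if |((z.1 : ℝ) ^ k - (z.2 : ℝ) ^ k) + AP k p| ≤ R then (1 : ℝ) else 0) := Finset.sum_le_sum h1
        _ = (8 * t / k1 k / (d * (Pa * P1))) * NPs q (X ^ q) k n ((z.1 : ℝ) ^ k - (z.2 : ℝ) ^ k) R := by
            rw [← Finset.mul_sum]
            rfl
        _ ≤ (8 * t / k1 k / (d * (Pa * P1))) * (Kc k m ^ n * (LL q (X ^ q) n * ((X ^ q) ^ (-(k : ℝ)) * R))) :=
            mul_le_mul_of_nonneg_left h2 (by positivity)
        _ = (8 * t / k1 k) * (Kc k m ^ n * (LL q (X ^ q) n * ((X ^ q) ^ (-(k : ℝ)) * (R / (d * (Pa * P1)))))) := by ring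
        _ ≤ G := by
            rw [hG]
            have h3 : R / (d * (Pa * P1)) ≤ c1 * (P1 * Pb) / (Pa * P1) + Lk / (Pa * P1) := by
              rw [hR, add_div]
              apply add_le_add
              · apply le_of_eq
                field_simp
              · apply div_le_div_of_nonneg_left hLk0.le (by positivity)
                have : 0 < Pa * P1 := by positivity
                nlinarith
            gcongr
    · rw [if_neg hdT, mul_zero]
      apply le_of_eq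
      apply Finset.sum_eq_zero
      intro p hp
      by_contra hne
      apply hdT
      have h3 := ((hv p hp).2 hne).1
      simp only [Fin.cons_zero] at h3
      rw [hT, le_div_iff₀ hP10]
      exact h3
  refine (Finset.sum_le_sum hz).trans ?_
  rw [← Finset.mul_sum]
  have hcp := close_pairs hq hX hT0.le
  refine (mul_le_mul_of_nonneg_left hcp hG0).trans ?_
  have hkP : 1 ≤ Pk / P1 := by
    rw [le_div_iff₀ hP10, one_mul, hPk, hP1]
    apply Real.rpow_le_rpow_of_exponent_le hX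
    linarith
  have h1 : 1 + 2 * T ≤ (1 + 6 * 2 ^ k) * (Pk / P1) := by
    rw [hT]
    have : 2 * (3 * 2 ^ k * Pk / P1) = 6 * 2 ^ k * (Pk / P1) := by ring
    rw [this]
    linarith
  have e1 : (X ^ q) ^ (-(k : ℝ)) * Pk = 1 := by
    rw [hPk, ← Real.rpow_mul hX0.le, ← Real.rpow_add hX0]
    simp
  have e2 : X * (1 / P1) = X ^ 2 * X ^ (-(k : ℝ)) := by
    rw [hP1, one_div, ← Real.rpow_neg hX0.le, ← Real.rpow_natCast X 2, ← Real.rpow_add hX0]
    nth_rewrite 1 [← Real.rpow_one X]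
    rw [← Real.rpow_add hX0]
    congr 1
    push_cast
    ring
  have e3 : c1 * (P1 * Pb) / (Pa * P1) = c1 * X ^ (q * (b - a)) := by
    have h2 : X ^ (q * (b - a)) * Pa = Pb := by
      rw [hPa, hPb, ← Real.rpow_add hX0]
      congr 1
      ring
    rw [← h2]
    field_simp
  have e4 : Lk / (Pa * P1) = X ^ (k * q ^ (n + 1) - ((k : ℝ) - 1 - q * (k - a))) := by
    have h2 : Lk = X ^ (k * q ^ (n + 1)) := by
      rw [hLk, ← lev_succ' hX]
      unfold lev
      rw [← Real.rpow_mul hX0.le]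
      congr 1
      ring
    have h3 : Pa * P1 = X ^ ((k : ℝ) - 1 - q * (k - a)) := by
      rw [hPa, hP1, ← Real.rpow_add hX0]
      congr 1
      ring
    rw [h2, h3, ← Real.rpow_sub hX0]
  have hA0 : 0 < X ^ (q * (b - a)) := Real.rpow_pos_of_pos hX0 _
  have hB0 : 0 < X ^ (k * q ^ (n + 1) - ((k : ℝ) - 1 - q * (k - a))) := Real.rpow_pos_of_pos hX0 _
  calc G * (2 * X * (1 + 2 * T)) ≤ G * (2 * X * ((1 + 6 * 2 ^ k) * (Pk / P1))) := by gcongr
    _ = (2 * (1 + 6 * 2 ^ k) * (8 * t / k1 k) * Kc k m ^ n) * (LL q (X ^ q) n * (((X ^ q) ^ (-(k : ℝ)) * Pk) * (X * (1 / P1)) *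
          (c1 * (P1 * Pb) / (Pa * P1) + Lk / (Pa * P1)))) := by
        rw [hG]
        ring
    _ = (2 * (1 + 6 * 2 ^ k) * (8 * t / k1 k) * Kc k m ^ n) * (LL q X (n + 1) * (X ^ (-(k : ℝ)) *
          (c1 * X ^ (q * (b - a)) + X ^ (k * q ^ (n + 1) - ((k : ℝ) - 1 - q * (k - a)))))) := by
        rw [e1, e2, e3, e4, LL_succ hX]
        ring
    _ ≤ (2 * (1 + 6 * 2 ^ k) * (8 * t / k1 k) * Kc k m ^ n) * (LL q X (n + 1) * (X ^ (-(k : ℝ)) *
          ((c1 + 1) * (X ^ (q * (b - a)) + X ^ (k * q ^ (n + 1) - ((k : ℝ) - 1 - q * (k - a))))))) := by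
        have hl := LL_nonneg q X (n + 1)
        have hxk : 0 < X ^ (-(k : ℝ)) := Real.rpow_pos_of_pos hX0 _
        apply mul_le_mul_of_nonneg_left _ (by positivity)
        apply mul_le_mul_of_nonneg_left _ hl
        apply mul_le_mul_of_nonneg_left _ hxk.le
        nlinarith
    _ = _ := by ring

/-- **the mean value** -/
theorem UU_le {q a b t : ℝ} {k m : ℕ} (hk : 2 ≤ k) (hq : 0 < q) (hq1 : q < 1) (hB : (1 - q) * k ≤ 1)
    (hD : 1 ≤ (1 - q) * (2 * k - 1 - q * (k - a)))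
    (ha : 1 ≤ a) (hab : a ≤ b) (hbk : b < k) (ht : 0 ≤ t) :
    ∀ n : ℕ, n ≤ m → ∃ C : ℝ, 0 ≤ C ∧ ∀ X : ℝ, 1 ≤ X → (∀ i < n, CQ q a b t k m (lev q X i)) →
      UU q X a b t k n ≤ C * (X ^ (b - a) * (LL q X n * X ^ (-(min (k : ℝ) (∑ i ∈ Finset.range n, q ^ i))))) := by
  have hk' : (2 : ℝ) ≤ k := by exact_mod_cast hk
  have hk1 := k1_pos hk
  intro n
  induction n with
  | zero =>
    intro _
    refine ⟨b - a, by linarith, fun X hX _ => ?_⟩
    have h1 : UU q X a b t k 0 ≤ b - a := by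
      unfold UU PPs
      rw [Fintype.piFinset_of_isEmpty, Finset.univ_unique, Finset.sum_singleton]
      exact vr_le k hab t _
    have h2 : 1 ≤ X ^ (b - a) := Real.one_le_rpow hX (by linarith)
    have h3 : min (k : ℝ) (∑ i ∈ Finset.range 0, q ^ i) = 0 := by
      rw [Finset.sum_range_zero]
      exact min_eq_right (by linarith)
    have h4 : LL q X 0 = 1 := by unfold LL; simp
    rw [h3, h4, neg_zero, Real.rpow_zero, mul_one, mul_one]
    nlinarith
  | succ n ih =>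
    intro hn
    obtain ⟨C, hC, H⟩ := ih (by omega)
    set C' : ℝ := 2 * (1 + 6 * 2 ^ k) * (8 * t / k1 k) * Kc k m ^ n * (6 * (k * 2 ^ (k - 1)) + 1) with hC'
    have hKc := Kc_ge k m
    have hC'0 : 0 ≤ C' := by positivity
    refine ⟨2 * C + 2 * C', by positivity, fun X hX hcq => ?_⟩
    have hX0 : 0 < X := by linarith
    have hXq : 1 ≤ X ^ q := Real.one_le_rpow hX hq.le
    have hl0 : lev q X 0 = X := by unfold lev; simp
    have hcq0 : CQ q a b t k m X := by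
      have := hcq 0 (by omega)
      rwa [hl0] at this
    have hIH := H (X ^ q) hXq (fun i hi => by
      have := hcq (i + 1) (by omega)
      rwa [lev_succ' hX] at this)
    have hWW := WW_le (n := n) hk hq hq1 hB hX ha hbk ht hn hcq0
    set e' : ℝ := min (k : ℝ) (∑ i ∈ Finset.range (n + 1), q ^ i) with he'
    set e : ℝ := min (k : ℝ) (∑ i ∈ Finset.range n, q ^ i) with he
    have hsum : ∑ i ∈ Finset.range (n + 1), q ^ i = 1 + q * ∑ i ∈ Finset.range n, q ^ i := by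
      rw [Finset.sum_range_succ', Finset.mul_sum, pow_zero, add_comm]
      congr 1
      exact Finset.sum_congr rfl fun i _ => by rw [pow_succ]; ring
    have hee : e' ≤ 1 + q * e := by
      rw [he', he]
      rcases min_choice (k : ℝ) (∑ i ∈ Finset.range n, q ^ i) with h | h
      · rw [h]
        refine (min_le_left _ _).trans ?_
        linarith
      · rw [h]
        refine (min_le_right _ _).trans ?_
        rw [hsum]
    have hgeom : (1 - q) * ∑ i ∈ Finset.range (n + 1), q ^ i = 1 - q ^ (n + 1) := mul_neg_geom_sum q (n + 1)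
    have hqn : 0 < q ^ (n + 1) := by positivity
    have hew : e' ≤ (k : ℝ) + ((k : ℝ) - 1 - q * (k - a)) - k * q ^ (n + 1) := by
      refine (min_le_right _ _).trans ?_
      have h1q : 0 < 1 - q := by linarith
      rw [← mul_le_mul_iff_of_pos_left h1q, hgeom]
      nlinarith [mul_nonneg hqn.le (sub_nonneg.2 hB)]
    -- splitting
    have hU : UU q X a b t k (n + 1) = ∑ z ∈ SS q X 0 ×ˢ SS q X 0, (if z.1 = z.2 then UU q (X ^ q) a b t k n else 0) +
        ∑ z ∈ SS q X 0 ×ˢ SS q X 0, (if z.1 = z.2 then 0 else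
          ∑ p ∈ PPs q (X ^ q) n, vr k a b t (Fin.cons z p : Fin (n + 1) → ℕ × ℕ)) := by
      unfold UU
      rw [sum_PPs_succ hX, ← Finset.sum_add_distrib]
      refine Finset.sum_congr rfl fun z _ => ?_
      by_cases h : z.1 = z.2
      · rw [if_pos h, if_pos h, add_zero]
        exact Finset.sum_congr rfl fun p _ => vr_cons_eq k a b t z h p
      · rw [if_neg h, if_neg h, zero_add]
    have hdiag : ∑ z ∈ SS q X 0 ×ˢ SS q X 0, (if z.1 = z.2 then UU q (X ^ q) a b t k n else 0) ≤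
        2 * X * UU q (X ^ q) a b t k n := by
      have h1 : ∑ z ∈ SS q X 0 ×ˢ SS q X 0, (if z.1 = z.2 then UU q (X ^ q) a b t k n else 0) =
          (SS q X 0).card * UU q (X ^ q) a b t k n := by
        rw [Finset.sum_product]
        simp
      rw [h1]
      have h2 := SS_card hq.le hX 0
      rw [hl0] at h2
      apply mul_le_mul_of_nonneg_right h2
      exact Finset.sum_nonneg fun p _ => vr_nonneg _ _ _ _ _
    rw [hU]
    have hLL := LL_nonneg q (X ^ q) n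
    have hLL' := LL_nonneg q X (n + 1)
    -- first part
    have p1 : 2 * X * UU q (X ^ q) a b t k n ≤ 2 * C * (X ^ (b - a) * (LL q X (n + 1) * X ^ (-e'))) := by
      have h1 : X * ((X ^ q) ^ (b - a) * (X ^ q) ^ (-e)) ≤ X ^ 2 * (X ^ (b - a) * X ^ (-e')) := by
        have e1 : X * ((X ^ q) ^ (b - a) * (X ^ q) ^ (-e)) = X ^ (1 + (q * (b - a) + q * (-e))) := by
          rw [← Real.rpow_mul hX0.le, ← Real.rpow_mul hX0.le, ← Real.rpow_add hX0, Real.rpow_add hX0 1, Real.rpow_one]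
        have e2 : X ^ 2 * (X ^ (b - a) * X ^ (-e')) = X ^ (2 + (b - a + -e')) := by
          rw [Real.rpow_add hX0 2, Real.rpow_add hX0 (b - a), Real.rpow_ofNat]
        rw [e1, e2]
        apply Real.rpow_le_rpow_of_exponent_le hX
        nlinarith [mul_nonneg (sub_nonneg.2 hq1.le) (sub_nonneg.2 hab)]
      calc 2 * X * UU q (X ^ q) a b t k n ≤ 2 * X * (C * ((X ^ q) ^ (b - a) * (LL q (X ^ q) n * (X ^ q) ^ (-e)))) :=
            mul_le_mul_of_nonneg_left hIH (by positivity)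
        _ = 2 * C * (LL q (X ^ q) n * (X * ((X ^ q) ^ (b - a) * (X ^ q) ^ (-e)))) := by ring
        _ ≤ 2 * C * (LL q (X ^ q) n * (X ^ 2 * (X ^ (b - a) * X ^ (-e')))) := by
            apply mul_le_mul_of_nonneg_left _ (by positivity)
            exact mul_le_mul_of_nonneg_left h1 hLL
        _ = _ := by
            rw [LL_succ hX]
            ring
    -- second part
    have p2 : C' * (LL q X (n + 1) * (X ^ (-(k : ℝ)) * (X ^ (q * (b - a)) + X ^ (k * q ^ (n + 1) - ((k : ℝ) - 1 - q * (k - a)))))) ≤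
        2 * C' * (X ^ (b - a) * (LL q X (n + 1) * X ^ (-e'))) := by
      have h1 : X ^ (-(k : ℝ)) * X ^ (q * (b - a)) ≤ X ^ (b - a) * X ^ (-e') := by
        rw [← Real.rpow_add hX0, ← Real.rpow_add hX0]
        apply Real.rpow_le_rpow_of_exponent_le hX
        have := min_le_left (k : ℝ) (∑ i ∈ Finset.range (n + 1), q ^ i)
        rw [← he'] at this
        nlinarith [mul_nonneg (sub_nonneg.2 hq1.le) (sub_nonneg.2 hab)]
      have h2 : X ^ (-(k : ℝ)) * X ^ (k * q ^ (n + 1) - ((k : ℝ) - 1 - q * (k - a))) ≤ X ^ (b - a) * X ^ (-e') := by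
        rw [← Real.rpow_add hX0, ← Real.rpow_add hX0]
        apply Real.rpow_le_rpow_of_exponent_le hX
        linarith
      calc C' * (LL q X (n + 1) * (X ^ (-(k : ℝ)) * (X ^ (q * (b - a)) + X ^ (k * q ^ (n + 1) - ((k : ℝ) - 1 - q * (k - a))))))
          = C' * (LL q X (n + 1) * (X ^ (-(k : ℝ)) * X ^ (q * (b - a)) +
              X ^ (-(k : ℝ)) * X ^ (k * q ^ (n + 1) - ((k : ℝ) - 1 - q * (k - a))))) := by ring
        _ ≤ C' * (LL q X (n + 1) * (X ^ (b - a) * X ^ (-e') + X ^ (b - a) * X ^ (-e'))) := by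
            apply mul_le_mul_of_nonneg_left _ hC'0
            apply mul_le_mul_of_nonneg_left _ hLL'
            linarith
        _ = _ := by ring
    calc _ ≤ 2 * X * UU q (X ^ q) a b t k n +
          C' * (LL q X (n + 1) * (X ^ (-(k : ℝ)) * (X ^ (q * (b - a)) + X ^ (k * q ^ (n + 1) - ((k : ℝ) - 1 - q * (k - a)))))) :=
          add_le_add hdiag hWW
      _ ≤ 2 * C * (X ^ (b - a) * (LL q X (n + 1) * X ^ (-e'))) + 2 * C' * (X ^ (b - a) * (LL q X (n + 1) * X ^ (-e'))) :=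
          add_le_add p1 p2
      _ = _ := by ring

end Pool.Agent.J4H7.WR
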