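import Pool.Agent.J4H7.WR.C

set_option autoImplicit false

/-!
# Waring's problem for `n ^ k + ⌊n ^ g⌋`, all `g > 1`, part C2 (helper7)

Borel-Cantelli.
-/

namespace Pool.Agent.J4H7.WR

open Real Set MeasureTheory Filter Topology
open Pool.Agent.J4H7.WE
open Pool.Agent.J4H7.WP

lemma VV_eq (q X : ℝ) (m : ℕ) : VV q X m = 4 ^ m * LL q X m := by
  unfold VV LL
  rw [Finset.prod_mul_distrib, Fin.prod_univ_eq_prod_range (fun i => lev q X i ^ 2) m]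
  simp

/-- the measure of the bad exponents -/
lemma badQ_le {q X a b t ε C : ℝ} {k m : ℕ} (hq : 0 < q) (hX : 1 ≤ X) (hC : 0 ≤ C)
    (hU : UU q X a b t k m ≤ C * (X ^ (b - a) * (LL q X m * X ^ (-(k : ℝ))))) :
    volume {g | g ∈ Icc a b ∧ VV q X m * X ^ (-(k : ℝ) + ε) ≤ TP q X k m t g} ≤
      ENNReal.ofReal (C * X ^ (b - a - ε)) := by
  have hX0 : 0 < X := by linarith
  set M : ℝ := VV q X m * X ^ (-(k : ℝ) + ε) with hM
  have hM0 : 0 < M := mul_pos (VV_pos hX m) (Real.rpow_pos_of_pos hX0 _)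
  have hp1 : ∀ p ∈ PPs q X m, ∀ i, 1 ≤ (p i).1 ∧ 1 ≤ (p i).2 := by
    intro p hp i
    rw [mem_PPs] at hp
    have g1 := (mem_SS hX).1 (hp i).1
    have g2 := (mem_SS hX).1 (hp i).2
    have g3 := one_le_lev hq.le hX (i : ℕ)
    constructor
    · exact_mod_cast g3.trans g1.1
    · exact_mod_cast g3.trans g2.1
  set f : ℝ → ENNReal := fun g => ∑ p ∈ PPs q X m, (EP k a b t p).indicator (fun _ => (1 : ENNReal)) g with hf
  have hfm : Measurable f := by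
    apply Finset.measurable_sum
    intro p hp
    exact measurable_const.indicator (EP_meas k p (hp1 p hp))
  have h1 : {g | g ∈ Icc a b ∧ M ≤ TP q X k m t g} ⊆ {g | ENNReal.ofReal M ≤ f g} := by
    rintro g ⟨h2, h3⟩
    change ENNReal.ofReal M ≤ f g
    rw [hf]
    simp only
    rw [TP_eq h2]
    calc ENNReal.ofReal M ≤ ENNReal.ofReal (TP q X k m t g : ℝ) := ENNReal.ofReal_le_ofReal h3
      _ = _ := ENNReal.ofReal_natCast _
  have h2 := meas_ge_le_lintegral_div (μ := volume) hfm.aemeasurable (ε := ENNReal.ofReal M)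
    (by rw [Ne, ENNReal.ofReal_eq_zero, not_le]; exact hM0) ENNReal.ofReal_ne_top
  have h3 : ∫⁻ g, f g = ∑ p ∈ PPs q X m, volume (EP k a b t p) := by
    rw [hf]
    rw [lintegral_finsetSum]
    · refine Finset.sum_congr rfl fun p hp => ?_
      rw [lintegral_indicator (EP_meas k p (hp1 p hp)), setLIntegral_const, one_mul]
    · intro p hp
      exact measurable_const.indicator (EP_meas k p (hp1 p hp))
  have h4 : ∑ p ∈ PPs q X m, volume (EP k a b t p) ≤ ENNReal.ofReal (C * (X ^ (b - a) * (LL q X m * X ^ (-(k : ℝ))))) := by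
    calc ∑ p ∈ PPs q X m, volume (EP k a b t p) = ∑ p ∈ PPs q X m, ENNReal.ofReal (vr k a b t p) := by
          refine Finset.sum_congr rfl fun p _ => ?_
          unfold vr
          rw [ofReal_measureReal (EP_ne_top k a b t p)]
      _ = ENNReal.ofReal (∑ p ∈ PPs q X m, vr k a b t p) := by
          rw [ENNReal.ofReal_sum_of_nonneg]
          intro p _
          exact vr_nonneg _ _ _ _ _
      _ ≤ _ := ENNReal.ofReal_le_ofReal hU
  calc volume {g | g ∈ Icc a b ∧ M ≤ TP q X k m t g} ≤ volume {g | ENNReal.ofReal M ≤ f g} := measure_mono h1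
    _ ≤ (∫⁻ g, f g) / ENNReal.ofReal M := h2
    _ ≤ ENNReal.ofReal (C * (X ^ (b - a) * (LL q X m * X ^ (-(k : ℝ))))) / ENNReal.ofReal M := by
        rw [h3]
        gcongr
    _ = ENNReal.ofReal (C * (X ^ (b - a) * (LL q X m * X ^ (-(k : ℝ)))) / M) := by
        rw [← ENNReal.ofReal_div_of_pos hM0]
    _ ≤ _ := by
        apply ENNReal.ofReal_le_ofReal
        rw [div_le_iff₀ hM0, hM, VV_eq]
        have e1 : C * X ^ (b - a - ε) * (4 ^ m * LL q X m * X ^ (-(k : ℝ) + ε)) =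
            4 ^ m * (C * (X ^ (b - a) * (LL q X m * X ^ (-(k : ℝ))))) := by
          have e2 : X ^ (b - a - ε) * X ^ (-(k : ℝ) + ε) = X ^ (b - a) * X ^ (-(k : ℝ)) := by
            rw [← Real.rpow_add hX0, ← Real.rpow_add hX0]
            congr 1
            ring
          calc _ = C * 4 ^ m * LL q X m * (X ^ (b - a - ε) * X ^ (-(k : ℝ) + ε)) := by ring
            _ = _ := by rw [e2]; ring
        rw [e1]
        have h5 : (1 : ℝ) ≤ 4 ^ m := one_le_pow₀ (by norm_num)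
        have h6 : 0 ≤ C * (X ^ (b - a) * (LL q X m * X ^ (-(k : ℝ)))) := by
          have := LL_nonneg q X m
          have := Real.rpow_nonneg hX0.le (b - a)
          have := Real.rpow_nonneg hX0.le (-(k : ℝ))
          positivity
        nlinarith

/-- the mean value for almost every exponent of a short interval -/
theorem ae_intervalQ {q a b t ε : ℝ} {k m : ℕ} (hk : 2 ≤ k) (hq : 0 < q) (hq1 : q < 1) (hB : (1 - q) * k ≤ 1)
    (hD : 1 ≤ (1 - q) * (2 * k - 1 - q * (k - a))) (h1 : q ^ 2 * k < (k : ℝ) - 1)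
    (h2 : q ^ 2 * b < (k : ℝ) - 1 - q * (k - a)) (ha : 1 ≤ a) (hab : a ≤ b) (hbk : b < k) (ht : 0 ≤ t)
    (hε : b - a < ε) (hC : (k : ℝ) ≤ ∑ i ∈ Finset.range m, q ^ i) :
    ∀ᵐ g : ℝ, g ∈ Icc a b → ∀ᶠ j : ℕ in atTop,
      (TP q ((2 : ℝ) ^ j) k m t g : ℝ) ≤ VV q ((2 : ℝ) ^ j) m * ((2 : ℝ) ^ j) ^ (-(k : ℝ) + ε) := by
  have hX1 : ∀ j : ℕ, (1 : ℝ) ≤ (2 : ℝ) ^ j := fun j => one_le_pow₀ (by norm_num)
  obtain ⟨C, hC0, HU⟩ := UU_le (m := m) hk hq hq1 hB hD ha hab hbk ht m le_rfl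
  rw [min_eq_left hC] at HU
  have hev : ∀ᶠ j : ℕ in atTop, ∀ i : ℕ, i ≤ m → CQ q a b t k m (lev q ((2 : ℝ) ^ j) i) :=
    (tendsto_pow_atTop_atTop_of_one_lt (by norm_num : (1 : ℝ) < 2)).eventually
      (ev_lev hq hq1 m (ev_CQ hk hq hq1 hbk h1 h2 (by linarith)))
  obtain ⟨j0, hj0⟩ := eventually_atTop.1 hev
  set s : ℕ → Set ℝ := fun j => {g | g ∈ Icc a b ∧
    VV q ((2 : ℝ) ^ (j + j0)) m * ((2 : ℝ) ^ (j + j0)) ^ (-(k : ℝ) + ε) ≤ TP q ((2 : ℝ) ^ (j + j0)) k m t g} with hs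
  have hsm : ∀ j, volume (s j) ≤ ENNReal.ofReal (C * ((2 : ℝ) ^ (j + j0)) ^ (b - a - ε)) := fun j =>
    badQ_le hq (hX1 _) hC0 (HU _ (hX1 _) fun i hi => hj0 _ (by omega) i hi.le)
  have hsum : Summable fun j : ℕ => C * ((2 : ℝ) ^ (j + j0)) ^ (b - a - ε) := by
    refine (summable_nat_add_iff (f := fun j : ℕ => C * ((2 : ℝ) ^ j) ^ (b - a - ε)) j0).2 ?_
    set r : ℝ := (2 : ℝ) ^ (b - a - ε) with hr
    have hr0 : 0 < r := Real.rpow_pos_of_pos (by norm_num) _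
    have hr1 : r < 1 := Real.rpow_lt_one_of_one_lt_of_neg (by norm_num) (by linarith)
    have e1 : ∀ j : ℕ, C * ((2 : ℝ) ^ j) ^ (b - a - ε) = C * r ^ j := by
      intro j
      rw [hr, ← Real.rpow_natCast, ← Real.rpow_natCast, ← Real.rpow_mul (by norm_num), ← Real.rpow_mul (by norm_num)]
      congr 2
      ring
    simp_rw [e1]
    exact (summable_geometric_of_lt_one hr0.le hr1).mul_left C
  have hne : ∑' j, volume (s j) ≠ ⊤ := by
    refine ne_top_of_le_ne_top hsum.tsum_ofReal_ne_top (ENNReal.tsum_le_tsum hsm)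
  filter_upwards [ae_eventually_notMem hne] with g hg hgI
  rw [eventually_atTop] at hg ⊢
  obtain ⟨j1, hj1⟩ := hg
  refine ⟨j1 + j0, fun j hj => ?_⟩
  have h1 := hj1 (j - j0) (by omega)
  have h2 : j - j0 + j0 = j := by omega
  rw [hs] at h1
  simp only [h2, mem_ofPred_eq, not_and, not_le] at h1
  exact (h1 hgI).le

/-- **the mean value for almost every `g`** -/
theorem ae_meanQ (k : ℕ) (hk : 2 ≤ k) : ∀ᵐ g : ℝ, 1 < g → g < k → ∀ (q : ℚ) (m : ℕ), 0 < (q : ℝ) → (q : ℝ) < 1 →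
    (1 - (q : ℝ)) * k ≤ 1 → (q : ℝ) ^ 2 * k < (k : ℝ) - 1 → (q : ℝ) ^ 2 * g < (k : ℝ) - 1 - q * (k - g) →
    1 < (1 - (q : ℝ)) * (2 * k - 1 - q * (k - g)) → (k : ℝ) ≤ ∑ i ∈ Finset.range m, (q : ℝ) ^ i →
    ∀ ε : ℝ, 0 < ε → ∀ᶠ j : ℕ in atTop,
      (TP q ((2 : ℝ) ^ j) k m m g : ℝ) ≤ VV q ((2 : ℝ) ^ j) m * ((2 : ℝ) ^ j) ^ (-(k : ℝ) + ε) := by
  have hk' : (2 : ℝ) ≤ k := by exact_mod_cast hk
  have key : ∀ᵐ g : ℝ, ∀ (q : ℚ) (m : ℕ) (a b ε : ℚ), (0 < (q : ℝ) ∧ (q : ℝ) < 1 ∧ (1 - (q : ℝ)) * k ≤ 1 ∧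
      1 ≤ (1 - (q : ℝ)) * (2 * k - 1 - q * (k - a)) ∧ (q : ℝ) ^ 2 * k < (k : ℝ) - 1 ∧
      (q : ℝ) ^ 2 * b < (k : ℝ) - 1 - q * (k - a) ∧ 1 ≤ (a : ℝ) ∧ (a : ℝ) ≤ b ∧ (b : ℝ) < k ∧
      (b : ℝ) - a < ε ∧ (k : ℝ) ≤ ∑ i ∈ Finset.range m, (q : ℝ) ^ i) → g ∈ Icc (a : ℝ) b →
      ∀ᶠ j : ℕ in atTop, (TP q ((2 : ℝ) ^ j) k m m g : ℝ) ≤ VV q ((2 : ℝ) ^ j) m * ((2 : ℝ) ^ j) ^ (-(k : ℝ) + (ε : ℝ)) := by
    rw [ae_all_iff]
    intro q
    rw [ae_all_iff]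
    intro m
    rw [ae_all_iff]
    intro a
    rw [ae_all_iff]
    intro b
    rw [ae_all_iff]
    intro ε
    by_cases h : (0 < (q : ℝ) ∧ (q : ℝ) < 1 ∧ (1 - (q : ℝ)) * k ≤ 1 ∧
      1 ≤ (1 - (q : ℝ)) * (2 * k - 1 - q * (k - a)) ∧ (q : ℝ) ^ 2 * k < (k : ℝ) - 1 ∧
      (q : ℝ) ^ 2 * b < (k : ℝ) - 1 - q * (k - a) ∧ 1 ≤ (a : ℝ) ∧ (a : ℝ) ≤ b ∧ (b : ℝ) < k ∧
      (b : ℝ) - a < ε ∧ (k : ℝ) ≤ ∑ i ∈ Finset.range m, (q : ℝ) ^ i)
    · obtain ⟨h1, h2, h3, h4, h5, h6, h7, h8, h9, h10, h11⟩ := h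
      filter_upwards [ae_intervalQ (t := m) (m := m) (a := (a : ℝ)) (b := (b : ℝ)) (ε := (ε : ℝ)) hk h1 h2 h3 h4 h5 h6 h7 h8 h9
        (by positivity) h10 h11] with g hg _ hI
      exact hg hI
    · exact Eventually.of_forall fun g h' => absurd h' h
  filter_upwards [key] with g hg hg1 hg2 q m hq hq1 hB h1 h2 h3 hC ε hε
  set γ1 : ℝ := (k : ℝ) - 1 - q * (k - g) - (q : ℝ) ^ 2 * g with hγ1
  set γ2 : ℝ := (1 - (q : ℝ)) * (2 * k - 1 - q * (k - g)) - 1 with hγ2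
  have hγ1p : 0 < γ1 := by rw [hγ1]; linarith
  have hγ2p : 0 < γ2 := by rw [hγ2]; linarith
  set τ : ℝ := min (min (γ1 / 2) γ2) (min (ε / 8) (g - 1)) with hτ
  have hτ0 : 0 < τ := by
    rw [hτ]
    refine lt_min (lt_min (by linarith) hγ2p) (lt_min (by linarith) (by linarith))
  have t1 : τ ≤ γ1 / 2 := (min_le_left _ _).trans (min_le_left _ _)
  have t2 : τ ≤ γ2 := (min_le_left _ _).trans (min_le_right _ _)
  have t3 : τ ≤ ε / 8 := (min_le_right _ _).trans (min_le_left _ _)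
  have t4 : τ ≤ g - 1 := (min_le_right _ _).trans (min_le_right _ _)
  obtain ⟨a, ha1, ha2⟩ := exists_rat_btwn (show g - τ < g by linarith)
  obtain ⟨b, hb1, hb2⟩ := exists_rat_btwn (show g < min (k : ℝ) (g + τ) from lt_min hg2 (by linarith))
  have hbk : (b : ℝ) < k := lt_of_lt_of_le hb2 (min_le_left _ _)
  have hbτ : (b : ℝ) < g + τ := lt_of_lt_of_le hb2 (min_le_right _ _)
  obtain ⟨ε', e1, e2⟩ := exists_rat_btwn (show ε / 4 < ε by linarith)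
  have hq2 : (q : ℝ) ^ 2 < 1 := by nlinarith
  have c1 : (q : ℝ) ^ 2 * b < (k : ℝ) - 1 - q * (k - a) := by
    have i1 : (q : ℝ) ^ 2 * b ≤ (q : ℝ) ^ 2 * (g + τ) := mul_le_mul_of_nonneg_left hbτ.le (by positivity)
    have i2 : (q : ℝ) * (k - a) < q * (k - g + τ) := mul_lt_mul_of_pos_left (by linarith) hq
    have i3 : (q : ℝ) ^ 2 * τ ≤ τ := by nlinarith
    have i4 : (q : ℝ) * τ ≤ τ := by nlinarith
    nlinarith
  have c2 : 1 ≤ (1 - (q : ℝ)) * (2 * k - 1 - q * (k - a)) := by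
    have i2 : (q : ℝ) * (k - a) ≤ q * (k - g + τ) := mul_le_mul_of_nonneg_left (by linarith) hq.le
    have i4 : (q : ℝ) * τ ≤ τ := by nlinarith
    have i5 : (1 - (q : ℝ)) * (2 * k - 1 - q * (k - g) - τ) ≤ (1 - (q : ℝ)) * (2 * k - 1 - q * (k - a)) := by
      apply mul_le_mul_of_nonneg_left _ (by linarith)
      nlinarith
    have i6 : (1 - (q : ℝ)) * τ ≤ τ := by nlinarith
    nlinarith
  filter_upwards [hg q m a b ε' ⟨hq, hq1, hB, c2, h1, c1, by linarith, by linarith, hbk, by linarith, hC⟩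
    ⟨ha2.le, hb1.le⟩] with j hj
  refine hj.trans ?_
  have hX : (1 : ℝ) ≤ (2 : ℝ) ^ j := one_le_pow₀ (by norm_num)
  apply mul_le_mul_of_nonneg_left _ (VV_pos hX m).le
  exact Real.rpow_le_rpow_of_exponent_le hX (by linarith)

end Pool.Agent.J4H7.WR
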