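import Pool.Agent.J4H7.WP.C

set_option autoImplicit false

/-!
# Waring's problem for `n ^ k + ⌊n ^ g⌋`, all `g > 1`, part D (helper7)

Exponential sums with `β (z ^ k + z ^ g)`, small `β`.
-/

namespace Pool.Agent.J4H7.WR

open Real Set Filter Topology
open Pool.Agent.J4H7.WE
open Pool.Agent.J4H7.WP
open Pool.Agent.Helper153.Vdc (ee dd Cond ee_norm vdc)

lemma ff_kpos {k j : ℕ} (h : j ≤ k) : 0 < ff (k : ℝ) j := by
  apply ff_pos
  have : (j : ℝ) ≤ k := by exact_mod_cast h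
  linarith

/-- the term with exponent `k` dominates -/
lemma dom (k : ℕ) {g : ℝ} (hgk : g < k) {j : ℕ} (hj : j ≤ k) :
    ∀ᶠ z : ℝ in atTop, |ff g j| * z ^ (g - j) ≤ 1 / 2 * (ff (k : ℝ) j * z ^ ((k : ℝ) - j)) := by
  have hp := ff_kpos hj
  have h1 : ∀ᶠ z : ℝ in atTop, 2 * |ff g j| / ff (k : ℝ) j ≤ z ^ ((k : ℝ) - g) :=
    (tendsto_rpow_atTop (by linarith)).eventually_ge_atTop _
  filter_upwards [h1, eventually_gt_atTop 0] with z h2 hz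
  rw [div_le_iff₀ hp] at h2
  have h3 : z ^ ((k : ℝ) - j) = z ^ ((k : ℝ) - g) * z ^ (g - j) := by
    rw [← Real.rpow_add hz]
    congr 1
    ring
  have h4 : 0 < z ^ (g - j) := Real.rpow_pos_of_pos hz _
  rw [h3]
  nlinarith [mul_le_mul_of_nonneg_right h2 h4.le]

/-- one derivative test -/
lemma SP_oneA (k : ℕ) {g : ℝ} (hgk : g < k) (j : ℕ) (hj : 2 ≤ j) (hjk : j ≤ k) {η : ℝ} (hη : 0 < η) (hη1 : η < 1) :
    ∃ σ : ℝ, 0 < σ ∧ σ ≤ 1 ∧ ∃ C : ℝ, 1 ≤ C ∧ ∃ X0 : ℝ, 2 ≤ X0 ∧ ∀ X : ℝ, X0 ≤ X →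
      ∀ β : ℝ, X ^ ((j : ℝ) - 2 + 2 * η) ≤ |β| * X ^ (k : ℝ) → |β| * X ^ (k : ℝ) ≤ X ^ ((j : ℝ) - 2 * η) →
      ∀ Y M : ℕ, 4 * X ≤ Y → (Y : ℝ) + M ≤ 64 * X + 1 → ‖SP k g Y M β‖ ≤ C * X ^ (1 - σ) := by
  have hA : (1 : ℝ) ≤ 3 * 16 ^ k := by
    have : (1 : ℝ) ≤ 16 ^ k := one_le_pow₀ (by norm_num)
    linarith
  obtain ⟨σ, hσ, hσ1, C, hC, H⟩ := vdc_num j hj hA hη hη1
  have hp := ff_kpos hjk
  have hjk' : (j : ℝ) ≤ k := by exact_mod_cast hjk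
  set κ : ℝ := 1 / 2 * ff (k : ℝ) j * 4 ^ ((k : ℝ) - j) with hκ
  have hκ0 : 0 < κ := by positivity
  obtain ⟨X0, hX0, H'⟩ := H κ hκ0
  obtain ⟨z0, hz0⟩ := eventually_atTop.1 (dom k hgk hjk)
  -- the sign of the next derivative
  obtain ⟨z1, hz1⟩ : ∃ z1 : ℝ, (∀ z, z1 ≤ z → 0 < z → 0 ≤ dv k g (j + 1) z) ∨ (∀ z, z1 ≤ z → 0 < z → dv k g (j + 1) z ≤ 0) := by
    rcases Nat.lt_or_ge j k with hlt | hge
    · obtain ⟨z1, hz1⟩ := eventually_atTop.1 (dom k hgk (show j + 1 ≤ k by omega))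
      refine ⟨z1, Or.inl fun z hz hz0 => ?_⟩
      have h1 := hz1 z hz
      have h2 := ff_kpos (show j + 1 ≤ k by omega)
      have h3 : 0 < z ^ ((k : ℝ) - ((j + 1 : ℕ) : ℝ)) := Real.rpow_pos_of_pos hz0 _
      have h4 : 0 < z ^ (g - ((j + 1 : ℕ) : ℝ)) := Real.rpow_pos_of_pos hz0 _
      unfold dv
      have h5 : -(|ff g (j + 1)| * z ^ (g - ((j + 1 : ℕ) : ℝ))) ≤ ff g (j + 1) * z ^ (g - ((j + 1 : ℕ) : ℝ)) := by
        have := neg_abs_le (ff g (j + 1))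
        nlinarith
      have h6 : 0 < ff (k : ℝ) (j + 1) * z ^ ((k : ℝ) - ((j + 1 : ℕ) : ℝ)) := mul_pos h2 h3
      linarith
    · have hje : j = k := by omega
      subst hje
      refine ⟨0, ?_⟩
      have e1 : ∀ z : ℝ, dv j g (j + 1) z = ff g (j + 1) * z ^ (g - ((j + 1 : ℕ) : ℝ)) := by
        intro z
        unfold dv
        rw [ff_nat_zero (Nat.lt_succ_self _), zero_mul, zero_add]
      rcases le_total 0 (ff g (j + 1)) with h | h
      · left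
        intro z _ hz0
        rw [e1]
        exact mul_nonneg h (Real.rpow_pos_of_pos hz0 _).le
      · right
        intro z _ hz0
        rw [e1]
        exact mul_nonpos_of_nonpos_of_nonneg h (Real.rpow_pos_of_pos hz0 _).le
  refine ⟨σ, hσ, hσ1, C, hC, max X0 (max z0 z1), hX0.trans (le_max_left _ _), ?_⟩
  intro X hX β hb1 hb2 Y M hY hM
  have hXX0 : X0 ≤ X := (le_max_left _ _).trans hX
  have hXz0 : z0 ≤ X := (le_max_left _ _).trans ((le_max_right _ _).trans hX)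
  have hXz1 : z1 ≤ X := (le_max_right _ _).trans ((le_max_right _ _).trans hX)
  have hX1 : 1 ≤ X := by linarith
  have hXp : 0 < X := by linarith
  have hdat : ∀ z, 4 * X ≤ z → z ≤ 64 * X → κ * (X ^ (k : ℝ) * X ^ (-(j : ℝ))) ≤ dv k g j z ∧
      dv k g j z ≤ (3 * 16 ^ k) * (κ * (X ^ (k : ℝ) * X ^ (-(j : ℝ)))) := by
    intro z hz1 hz2
    have hzp : 0 < z := by linarith
    have e1 : X ^ (k : ℝ) * X ^ (-(j : ℝ)) = X ^ ((k : ℝ) - j) := by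
      rw [← Real.rpow_add hXp]
      congr 1
    have h1 : 4 ^ ((k : ℝ) - j) * X ^ ((k : ℝ) - j) ≤ z ^ ((k : ℝ) - j) := by
      rw [← Real.mul_rpow (by norm_num) hXp.le]
      exact Real.rpow_le_rpow (by linarith) hz1 (by linarith)
    have h2 : z ^ ((k : ℝ) - j) ≤ 16 ^ ((k : ℝ) - j) * (4 ^ ((k : ℝ) - j) * X ^ ((k : ℝ) - j)) := by
      rw [← mul_assoc, ← Real.mul_rpow (by norm_num) (by norm_num), ← Real.mul_rpow (by norm_num) hXp.le]
      exact Real.rpow_le_rpow hzp.le (by linarith) (by linarith)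
    have h3 := hz0 z (by linarith)
    have h4 : |ff g j * z ^ (g - j)| ≤ 1 / 2 * (ff (k : ℝ) j * z ^ ((k : ℝ) - j)) := by
      rw [abs_mul, abs_of_pos (Real.rpow_pos_of_pos hzp _)]
      exact h3
    have h5 := (abs_le.1 h4).1
    have h6 := (abs_le.1 h4).2
    have h7 : (16 : ℝ) ^ ((k : ℝ) - j) ≤ 16 ^ k := by
      rw [← Real.rpow_natCast 16 k]
      apply Real.rpow_le_rpow_of_exponent_le (by norm_num)
      have : (0 : ℝ) ≤ j := Nat.cast_nonneg j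
      linarith
    have h8 : 0 < 4 ^ ((k : ℝ) - j) * X ^ ((k : ℝ) - j) := by positivity
    have h9 : ff (k : ℝ) j * (4 ^ ((k : ℝ) - j) * X ^ ((k : ℝ) - j)) ≤ ff (k : ℝ) j * z ^ ((k : ℝ) - j) :=
      mul_le_mul_of_nonneg_left h1 hp.le
    have h10 : ff (k : ℝ) j * z ^ ((k : ℝ) - j) ≤ ff (k : ℝ) j * (16 ^ k * (4 ^ ((k : ℝ) - j) * X ^ ((k : ℝ) - j))) := by
      apply mul_le_mul_of_nonneg_left _ hp.le
      refine h2.trans ?_
      exact mul_le_mul_of_nonneg_right h7 h8.le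
    rw [e1, hκ]
    unfold dv
    constructor
    · linarith
    · have e2 : 3 * 16 ^ k * (1 / 2 * ff (k : ℝ) j * 4 ^ ((k : ℝ) - j) * X ^ ((k : ℝ) - j)) =
        3 / 2 * (ff (k : ℝ) j * (16 ^ k * (4 ^ ((k : ℝ) - j) * X ^ ((k : ℝ) - j)))) := by ring
      rw [e2]
      linarith
  obtain ⟨φ, hφ1, hφ2⟩ := cond_gen (dv k g) (dv_deriv k g) j (β := β)
    (lam := κ * (|β| * X ^ (k : ℝ)) * X ^ (-(j : ℝ))) (A := 3 * 16 ^ k) (e := 1) hX1 hY hM (Or.inl rfl)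
    (fun z hz1 hz2 => by
      obtain ⟨g1, g2⟩ := hdat z hz1 hz2
      have hb := abs_nonneg β
      rw [one_mul]
      constructor
      · calc κ * (|β| * X ^ (k : ℝ)) * X ^ (-(j : ℝ)) = |β| * (κ * (X ^ (k : ℝ) * X ^ (-(j : ℝ)))) := by ring
          _ ≤ _ := mul_le_mul_of_nonneg_left g1 hb
      · calc |β| * dv k g j z ≤ |β| * ((3 * 16 ^ k) * (κ * (X ^ (k : ℝ) * X ^ (-(j : ℝ))))) :=
              mul_le_mul_of_nonneg_left g2 hb
          _ = _ := by ring)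
    (by
      rcases hz1 with h | h
      · left
        intro z hz _
        rw [one_mul]
        exact h z (by linarith) (by linarith)
      · right
        intro z hz _
        rw [one_mul]
        exact h z (by linarith) (by linarith))
  have e1 : ‖SP k g Y M β‖ = ‖∑ n ∈ Finset.range M, ee (φ n)‖ := by
    rw [← hφ1]
    unfold SP
    simp_rw [dv_zero]
  rw [e1]
  refine H' X hXX0 _ hb1 hb2 M φ ?_ hφ2
  have : (4 : ℝ) ≤ Y := by linarith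
  linarith

lemma SP_allA (k : ℕ) {g : ℝ} (hgk : g < k) {η : ℝ} (hη : 0 < η) (hη1 : η < 1) (J : ℕ) (hJk : J ≤ k) :
    ∃ σ : ℝ, 0 < σ ∧ σ ≤ 1 ∧ ∃ C : ℝ, 1 ≤ C ∧ ∃ X0 : ℝ, 2 ≤ X0 ∧
      ∀ j : ℕ, 2 ≤ j → j ≤ J → ∀ X : ℝ, X0 ≤ X →
      ∀ β : ℝ, X ^ ((j : ℝ) - 2 + 2 * η) ≤ |β| * X ^ (k : ℝ) → |β| * X ^ (k : ℝ) ≤ X ^ ((j : ℝ) - 2 * η) →
      ∀ Y M : ℕ, 4 * X ≤ Y → (Y : ℝ) + M ≤ 64 * X + 1 → ‖SP k g Y M β‖ ≤ C * X ^ (1 - σ) := by
  induction J with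
  | zero =>
    exact ⟨1, one_pos, le_rfl, 1, le_rfl, 2, le_rfl, fun j h1 h2 => by omega⟩
  | succ J ih =>
    obtain ⟨σ1, h1, h1', C1, hC1, X1, hX1, H1⟩ := ih (by omega)
    by_cases hJ : 2 ≤ J + 1
    · obtain ⟨σ2, h2, h2', C2, hC2, X2, hX2, H2⟩ := SP_oneA k hgk (J + 1) hJ hJk hη hη1
      refine ⟨min σ1 σ2, lt_min h1 h2, (min_le_left _ _).trans h1', max C1 C2, hC1.trans (le_max_left _ _), max X1 X2,
        hX1.trans (le_max_left _ _), ?_⟩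
      intro j hj hjJ X hX β hb1 hb2 Y M hY hM
      have hXp : (1 : ℝ) ≤ X := by linarith [(le_max_left X1 X2).trans hX]
      have hpos : ∀ s : ℝ, 0 ≤ X ^ s := fun s => Real.rpow_nonneg (by linarith) s
      rcases Nat.lt_or_ge j (J + 1) with hlt | hge
      · refine (H1 j hj (by omega) X ((le_max_left _ _).trans hX) β hb1 hb2 Y M hY hM).trans ?_
        refine mul_le_mul (le_max_left _ _) ?_ (hpos _) (by linarith [le_max_left C1 C2])
        exact Real.rpow_le_rpow_of_exponent_le hXp (by linarith [min_le_left σ1 σ2])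
      · have hje : j = J + 1 := by omega
        subst hje
        refine (H2 X ((le_max_right _ _).trans hX) β hb1 hb2 Y M hY hM).trans ?_
        refine mul_le_mul (le_max_right _ _) ?_ (hpos _) (by linarith [le_max_left C1 C2])
        exact Real.rpow_le_rpow_of_exponent_le hXp (by linarith [min_le_right σ1 σ2])
    · exact ⟨σ1, h1, h1', C1, hC1, X1, hX1, fun j h3 h4 => by omega⟩

/-- **the exponential sums for small `β`** -/
theorem ESA (k : ℕ) (hk : 2 ≤ k) {g : ℝ} (hgk : g < k) {η : ℝ} (hη : 0 < η) (hη1 : η ≤ 1 / 8) :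
    ∃ σ : ℝ, 0 < σ ∧ σ ≤ 1 ∧ ∃ C : ℝ, 1 ≤ C ∧ ∃ X0 : ℝ, 2 ≤ X0 ∧ ∀ X : ℝ, X0 ≤ X →
      ∀ β : ℝ, X ^ (2 * η) ≤ |β| * X ^ (k : ℝ) → |β| * X ^ (k : ℝ) ≤ X ^ ((k : ℝ) - 2 * η) → ∀ Y M : ℕ, 4 * X ≤ Y →
      (Y : ℝ) + M ≤ 64 * X + 1 → ‖SP k g Y M β‖ ≤ C * X ^ (1 - σ) := by
  have hk' : (2 : ℝ) ≤ k := by exact_mod_cast hk
  obtain ⟨σ, h1, h2, C, hC, X0, hX0, H⟩ := SP_allA k hgk hη (by linarith) k le_rfl
  refine ⟨σ, h1, h2, C, hC, X0, hX0, ?_⟩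
  intro X hX β hb1 hb2 Y M hY hM
  have hX2 : 2 ≤ X := hX0.trans hX
  have hX1 : 1 ≤ X := by linarith
  have hXp : 0 < X := by linarith
  have hl : 0 < Real.log X := Real.log_pos (by linarith)
  have hpos : 0 < |β| * X ^ (k : ℝ) := lt_of_lt_of_le (Real.rpow_pos_of_pos hXp _) hb1
  set μ : ℝ := Real.log (|β| * X ^ (k : ℝ)) / Real.log X with hμ
  have hXμ : X ^ μ = |β| * X ^ (k : ℝ) := by
    rw [Real.rpow_def_of_pos hXp, hμ, mul_div_cancel₀ _ hl.ne', Real.exp_log hpos]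
  have m1 : 2 * η ≤ μ := by
    rw [← hXμ] at hb1
    exact (Real.rpow_le_rpow_left_iff (by linarith)).1 hb1
  have m2 : μ ≤ k - 2 * η := by
    rw [← hXμ] at hb2
    exact (Real.rpow_le_rpow_left_iff (by linarith)).1 hb2
  have app : ∀ j : ℕ, 2 ≤ j → j ≤ k → (j : ℝ) - 2 + 2 * η ≤ μ → μ ≤ j - 2 * η → ‖SP k g Y M β‖ ≤ C * X ^ (1 - σ) := by
    intro j hj hj2 g1 g2
    refine H j hj hj2 X hX β ?_ ?_ Y M hY hM
    · rw [← hXμ]
      exact Real.rpow_le_rpow_of_exponent_le hX1 g1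
    · rw [← hXμ]
      exact Real.rpow_le_rpow_of_exponent_le hX1 g2
  rcases le_or_gt μ (2 - 2 * η) with h3 | h3
  · exact app 2 le_rfl hk (by push_cast; linarith) (by push_cast; linarith)
  · set j := ⌈μ + 2 * η⌉₊ with hj
    have k1 : μ + 2 * η ≤ j := Nat.le_ceil _
    have k2 : (j : ℝ) < μ + 2 * η + 1 := Nat.ceil_lt_add_one (by linarith)
    have k3 : 2 ≤ j := by
      have : (2 : ℝ) < j := by linarith
      have : 2 < j := by exact_mod_cast this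
      omega
    have k4 : j ≤ k := by
      have : (j : ℝ) < ((k + 1 : ℕ) : ℝ) := by
        push_cast
        linarith
      have : j < k + 1 := by exact_mod_cast this
      omega
    exact app j k3 k4 (by linarith) (by linarith)

end Pool.Agent.J4H7.WR
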