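import Pool.Agent.J4H7.WR.D
import Pool.Agent.J4H7.WR.C2
import Pool.Agent.J4H7.WP.E

set_option autoImplicit false

/-!
# Waring's problem for `n ^ k + ⌊n ^ g⌋`, all `g > 1`, part E (helper7)

All frequencies; the main term.
-/

namespace Pool.Agent.J4H7.WR

open Real Set Filter Topology
open Pool.Agent.J4H7.WE
open Pool.Agent.J4H7.WP
open Pool.Agent.Helper153.Vdc (ee ee_norm)

/-- the exponential sums for large `β` -/
def ESBs (k : ℕ) (g : ℝ) : Prop := ∃ σ : ℝ, 0 < σ ∧ σ ≤ 1 ∧ ∃ C : ℝ, 1 ≤ C ∧ ∃ X0 : ℝ, 2 ≤ X0 ∧ ∀ X : ℝ, X0 ≤ X →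
  ∀ β : ℝ, X ^ (-(1 / 2 : ℝ)) ≤ |β| → |β| ≤ X → ∀ Y M : ℕ, 4 * X ≤ Y → (Y : ℝ) + M ≤ 64 * X + 1 →
  ‖SP k g Y M β‖ ≤ C * X ^ (1 - σ)

/-- **all exponential sums** -/
theorem ESQ (k : ℕ) (hk : 2 ≤ k) {g : ℝ} (hgk : g < k) (hES : ESBs k g) {η : ℝ} (hη : 0 < η) (hη1 : η ≤ 1 / 8) :
    ∃ σ : ℝ, 0 < σ ∧ σ ≤ 1 ∧ ∃ C : ℝ, 1 ≤ C ∧ ∃ X0 : ℝ, 2 ≤ X0 ∧ ∀ X : ℝ, X0 ≤ X →
      ∀ β : ℝ, X ^ (2 * η) ≤ |β| * X ^ (k : ℝ) → |β| ≤ X → ∀ Y M : ℕ, 4 * X ≤ Y →
      (Y : ℝ) + M ≤ 64 * X + 1 → ‖SP k g Y M β‖ ≤ C * X ^ (1 - σ) := by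
  obtain ⟨σ1, h1, h1', C1, hC1, X1, hX1, H1⟩ := hES
  obtain ⟨σ2, h2, h2', C2, hC2, X2, hX2, H2⟩ := ESA k hk hgk hη hη1
  refine ⟨min σ1 σ2, lt_min h1 h2, (min_le_left _ _).trans h1', max C1 C2, hC1.trans (le_max_left _ _), max X1 X2,
    hX1.trans (le_max_left _ _), ?_⟩
  intro X hX β hb1 hb2 Y M hY hM
  have hXp : (1 : ℝ) ≤ X := by linarith [(le_max_left X1 X2).trans hX]
  have hpos : ∀ s : ℝ, 0 ≤ X ^ s := fun s => Real.rpow_nonneg (by linarith) s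
  rcases le_or_gt (X ^ (-(1 / 2 : ℝ))) |β| with h | h
  · refine (H1 X ((le_max_left _ _).trans hX) β h hb2 Y M hY hM).trans ?_
    refine mul_le_mul (le_max_left _ _) ?_ (hpos _) (by linarith [le_max_left C1 C2])
    exact Real.rpow_le_rpow_of_exponent_le hXp (by linarith [min_le_left σ1 σ2])
  · refine (H2 X ((le_max_right _ _).trans hX) β hb1 ?_ Y M hY hM).trans ?_
    · calc |β| * X ^ (k : ℝ) ≤ X ^ (-(1 / 2 : ℝ)) * X ^ (k : ℝ) := mul_le_mul_of_nonneg_right h.le (hpos _)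
        _ = X ^ (-(1 / 2 : ℝ) + k) := by rw [Real.rpow_add (by linarith)]
        _ ≤ _ := Real.rpow_le_rpow_of_exponent_le hXp (by linarith)
    · refine mul_le_mul (le_max_right _ _) ?_ (hpos _) (by linarith [le_max_left C1 C2])
      exact Real.rpow_le_rpow_of_exponent_le hXp (by linarith [min_le_right σ1 σ2])

theorem GP_boundQ (k : ℕ) (hk : 2 ≤ k) {g : ℝ} (hgk : g < k) (hES : ESBs k g) {η : ℝ} (hη : 0 < η) (hη1 : η ≤ 1 / 8) :
    ∃ σ : ℝ, 0 < σ ∧ σ ≤ 1 ∧ ∃ C : ℝ, 1 ≤ C ∧ ∃ X0 : ℝ, 4 ≤ X0 ∧ ∀ X : ℝ, X0 ≤ X →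
      ∀ α : ℝ, |α| ≤ 1 / 2 → X ^ (2 * η) ≤ |α| * X ^ (k : ℝ) → ∀ Y M : ℕ, 4 * X ≤ Y →
      (Y : ℝ) + M ≤ 64 * X + 1 → ‖GP k g Y M α‖ ≤ C * X ^ (1 - σ) := by
  have hk' : (2 : ℝ) ≤ k := by exact_mod_cast hk
  obtain ⟨σ, hσ, hσ1, C, hC, X0, hX0, H⟩ := ESQ k hk hgk hES hη hη1
  have hS := sum_dec
  set S : ℝ := ∑' n : ℤ, 8 / (1 + |(n : ℝ)|) ^ 2 with hSd
  have hS0 : 0 ≤ S := tsum_nonneg fun n => by positivity
  refine ⟨σ, hσ, hσ1, 1 + S * (C + 130), ?_, max X0 4, le_max_right _ _, ?_⟩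
  · have : 0 ≤ S * (C + 130) := mul_nonneg hS0 (by linarith)
    linarith
  intro X hX α hα hα2 Y M hY hM
  have hX4 : 4 ≤ X := (le_max_right _ _).trans hX
  have hXp : 0 < X := by linarith
  set P : ℝ := X ^ (1 - σ) with hP
  have hP1 : 1 ≤ P := Real.one_le_rpow (by linarith) (by linarith)
  have hM65 : (M : ℝ) ≤ 65 * X := by
    have : (0 : ℝ) ≤ Y := by positivity
    linarith
  -- each term
  have hterm : ∀ h : ℤ, ‖cf α h * SP k g Y M (h + α)‖ ≤ 8 / (1 + |(h : ℝ)|) ^ 2 * ((C + 130) * P) := by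
    intro h
    have hh0 := abs_nonneg (h : ℝ)
    have hSE : ‖SP k g Y M (h + α)‖ ≤ (1 + |(h : ℝ)|) * ((C + 130) * P) := by
      rcases le_or_gt |(h : ℝ) + α| X with hle | hgt
      · have g1 : ‖SP k g Y M (h + α)‖ ≤ C * P := by
          refine H X ((le_max_left _ _).trans hX) (h + α) ?_ ?_ Y M hY hM
          · by_cases hh : h = 0
            · subst hh
              simpa using hα2
            · have h1 : (1 : ℝ) ≤ |(h : ℝ)| := by
                have : (1 : ℤ) ≤ |h| := Int.one_le_abs hh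
                exact_mod_cast this
              have h2 : 1 / 2 ≤ |(h : ℝ) + α| := by
                have := abs_sub_abs_le_abs_sub (h : ℝ) (-α)
                rw [abs_neg, sub_neg_eq_add] at this
                linarith
              have h3 : X ^ (2 * η) ≤ X ^ (1 / 2 : ℝ) := Real.rpow_le_rpow_of_exponent_le (by linarith) (by linarith)
              have h4 : X ^ (1 / 2 : ℝ) * X ^ (1 / 2 : ℝ) ≤ X ^ (k : ℝ) := by
                rw [← Real.rpow_add hXp]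
                exact Real.rpow_le_rpow_of_exponent_le (by linarith) (by linarith)
              have h5 : (2 : ℝ) ≤ X ^ (1 / 2 : ℝ) := by
                have : (2 : ℝ) = (4 : ℝ) ^ (1 / 2 : ℝ) := by
                  rw [show (4 : ℝ) = 2 ^ (2 : ℝ) by norm_num, ← Real.rpow_mul (by norm_num)]
                  norm_num
                exact this.le.trans (Real.rpow_le_rpow (by norm_num) hX4 (by norm_num))
              have h6 : 0 < X ^ (1 / 2 : ℝ) := by linarith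
              calc X ^ (2 * η) ≤ X ^ (1 / 2 : ℝ) := h3
                _ ≤ 1 / 2 * (X ^ (1 / 2 : ℝ) * X ^ (1 / 2 : ℝ)) := by nlinarith
                _ ≤ 1 / 2 * X ^ (k : ℝ) := by linarith
                _ ≤ |(h : ℝ) + α| * X ^ (k : ℝ) := mul_le_mul_of_nonneg_right h2 (Real.rpow_nonneg hXp.le _)
          · exact hle
        calc ‖SP k g Y M (h + α)‖ ≤ C * P := g1
          _ ≤ 1 * ((C + 130) * P) := by nlinarith
          _ ≤ _ := by
            apply mul_le_mul_of_nonneg_right _ (by nlinarith)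
            linarith
      · have h1 : X / 2 ≤ |(h : ℝ)| := by
          have := abs_add_le (h : ℝ) α
          linarith
        calc ‖SP k g Y M (h + α)‖ ≤ M := SP_triv _ _ _ _ _
          _ ≤ 65 * X := hM65
          _ ≤ (1 + |(h : ℝ)|) * 130 := by linarith
          _ ≤ _ := by
            apply mul_le_mul_of_nonneg_left _ (by linarith)
            nlinarith
    rw [norm_mul]
    calc ‖cf α h‖ * ‖SP k g Y M (h + α)‖ ≤ 8 / (1 + |(h : ℝ)|) ^ 3 * ((1 + |(h : ℝ)|) * ((C + 130) * P)) :=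
          mul_le_mul (cf_bound hα h) hSE (norm_nonneg _) (by positivity)
      _ = _ := by
        field_simp
  have hG := GP_hasSum k g Y M hα
  have hsum : Summable fun h : ℤ => 8 / (1 + |(h : ℝ)|) ^ 2 * ((C + 130) * P) := hS.mul_right _
  calc ‖GP k g Y M α‖ = ‖∑' h : ℤ, cf α h * SP k g Y M (h + α)‖ := by rw [hG.tsum_eq]
    _ ≤ ∑' h : ℤ, 8 / (1 + |(h : ℝ)|) ^ 2 * ((C + 130) * P) := tsum_of_norm_bounded hsum.hasSum hterm
    _ = S * ((C + 130) * P) := by rw [tsum_mul_right]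
    _ ≤ (1 + S * (C + 130)) * P := by nlinarith

/-- the sum of the weights in an interval -/
theorem WP_boundQ (k : ℕ) (hk : 2 ≤ k) {g : ℝ} (hgk : g < k) (hES : ESBs k g) :
    ∃ σ : ℝ, 0 < σ ∧ σ ≤ 1 ∧ ∃ C : ℝ, 1 ≤ C ∧ ∃ X0 : ℝ, 4 ≤ X0 ∧ ∀ X : ℝ, X0 ≤ X →
      ∀ Y M : ℕ, 4 * X ≤ Y → (Y : ℝ) + M ≤ 64 * X + 1 →
      (M : ℝ) / 2 - C * X ^ (1 - σ) ≤ ∑ n ∈ Finset.range M, ww (((Y : ℝ) + n) ^ k + ((Y : ℝ) + n) ^ g) := by
  have hk' : (2 : ℝ) ≤ k := by exact_mod_cast hk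
  obtain ⟨σ, hσ, hσ1, C, hC, X0, hX0, H⟩ := ESQ k hk hgk hES (η := 1 / 8) (by norm_num) le_rfl
  refine ⟨σ, hσ, hσ1, C, hC, max X0 4, le_max_right _ _, ?_⟩
  intro X hX Y M hY hM
  have hX4 : 4 ≤ X := (le_max_right _ _).trans hX
  have hXp : 0 < X := by linarith
  have hS : ∀ s : ℝ, |s| = 1 → ‖SP k g Y M s‖ ≤ C * X ^ (1 - σ) := by
    intro s hs
    refine H X ((le_max_left _ _).trans hX) s ?_ ?_ Y M hY hM
    · rw [hs, one_mul]
      exact Real.rpow_le_rpow_of_exponent_le (by linarith) (by linarith)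
    · rw [hs]
      linarith
  have e1 : ((∑ n ∈ Finset.range M, ww (((Y : ℝ) + n) ^ k + ((Y : ℝ) + n) ^ g) : ℝ) : ℂ) =
      (2 * M - SP k g Y M 1 - SP k g Y M (-1)) / 4 := by
    rw [Complex.ofReal_sum]
    simp_rw [ww_ee]
    rw [← Finset.sum_div, Finset.sum_sub_distrib, Finset.sum_sub_distrib]
    unfold SP
    simp only [one_mul, neg_mul, Finset.sum_const, Finset.card_range, nsmul_eq_mul]
    congr 3
    ring
  have e2 : (∑ n ∈ Finset.range M, ww (((Y : ℝ) + n) ^ k + ((Y : ℝ) + n) ^ g)) =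
      (2 * (M : ℝ) - (SP k g Y M 1).re - (SP k g Y M (-1)).re) / 4 := by
    have := congrArg Complex.re e1
    rw [Complex.ofReal_re] at this
    rw [this]
    have h4 : ((2 * (M : ℂ) - SP k g Y M 1 - SP k g Y M (-1)) / 4) =
        (((1 / 4 : ℝ)) : ℂ) * (2 * (M : ℂ) - SP k g Y M 1 - SP k g Y M (-1)) := by
      push_cast
      ring
    rw [h4, Complex.re_ofReal_mul]
    simp
    ring
  rw [e2]
  have h1 := (Complex.re_le_norm (SP k g Y M 1)).trans (hS 1 (by norm_num))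
  have h2 := (Complex.re_le_norm (SP k g Y M (-1))).trans (hS (-1) (by norm_num))
  have h3 : 0 ≤ C * X ^ (1 - σ) := by
    have := Real.rpow_nonneg hXp.le (1 - σ)
    positivity
  linarith

open scoped Classical in
/-- **the main term** -/
theorem count_lowerQ (k : ℕ) (hk : 2 ≤ k) {g : ℝ} (hg1' : 1 ≤ g) (hg2 : g < k) (hES : ESBs k g) :
    ∃ ρ : ℝ, 0 < ρ ∧ ρ ≤ 1 / 4 ∧ ∃ c : ℝ, 0 < c ∧ ∃ X0 : ℝ, 4 ≤ X0 ∧ ∀ X : ℝ, X0 ≤ X →
      ∀ W T : ℕ, X ^ ((k : ℝ) - ρ) ≤ W → 2 * (4 * X) ^ k ≤ (T : ℝ) - W + 1 → (T : ℝ) ≤ (32 * X) ^ k →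
      c * X ^ (1 - ρ) ≤ ∑ z ∈ BB X, if (T < fp k g z + W ∧ fp k g z ≤ T) then ww ((z : ℝ) ^ k + (z : ℝ) ^ g) else 0 := by
  have hk' : (2 : ℝ) ≤ k := by exact_mod_cast hk
  obtain ⟨σ, hσ, hσ1, C, hC, X1, hX1, HW⟩ := WP_boundQ k hk hg2 hES
  set ρ : ℝ := σ / 4 with hρ
  have hρ0 : 0 < ρ := by positivity
  set θ : ℝ := (k : ℝ) with hθd
  set c0 : ℝ := 1 / (4 * θ * 32 ^ (θ - 1)) with hc0
  have hc00 : 0 < c0 := by positivity
  have ev1 : ∀ᶠ X : ℝ in atTop, (2 : ℝ) ≤ X ^ (θ - ρ) := (tendsto_rpow_atTop (by linarith)).eventually_ge_atTop _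
  have ev2 : ∀ᶠ X : ℝ in atTop, 4 / c0 ≤ X ^ (1 - ρ) := (tendsto_rpow_atTop (by linarith)).eventually_ge_atTop _
  have ev3 : ∀ᶠ X : ℝ in atTop, 8 * C / c0 ≤ X ^ (σ - ρ) := (tendsto_rpow_atTop (by linarith)).eventually_ge_atTop _
  obtain ⟨X2, hX2⟩ := eventually_atTop.1 (ev1.and (ev2.and ev3))
  refine ⟨ρ, hρ0, by linarith, c0 / 4, by positivity, max X1 X2, hX1.trans (le_max_left _ _), ?_⟩
  intro X hX W T hW hT1 hT2
  obtain ⟨g1, g2, g3⟩ := hX2 X ((le_max_right _ _).trans hX)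
  have hX4 : 4 ≤ X := hX1.trans ((le_max_left _ _).trans hX)
  have hX0 : 0 < X := by linarith
  have hθ0 : 0 < θ := by linarith
  set t : ℝ := (T : ℝ) - W + 1 with ht
  have h4X : 0 < (4 * X) ^ k := by positivity
  have ht0 : 0 < t := by linarith
  have hW2 : (2 : ℝ) ≤ W := g1.trans hW
  have hT0 : (0 : ℝ) < T := by linarith
  have htT : t < T := by linarith
  -- the function
  set f : ℝ → ℝ := fun z => z ^ k + z ^ g with hf
  have hfc : ContinuousOn f (Icc (4 * X) (32 * X)) := by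
    intro z hz
    have hz0 : z ≠ 0 := by
      have : 0 < z := by linarith [hz.1]
      exact this.ne'
    exact ((continuousAt_id.pow k).add (Real.continuousAt_rpow_const z g (Or.inl hz0))).continuousWithinAt
  have hmono : ∀ a b : ℝ, 0 < a → a ≤ b → f a ≤ f b := by
    intro a b ha hab
    exact add_le_add (pow_le_pow_left₀ ha.le hab k) (Real.rpow_le_rpow ha.le hab (by linarith))
  have hfl : f (4 * X) ≤ t := by
    refine le_trans ?_ hT1
    have h1 : (4 * X) ^ g ≤ (4 * X) ^ k := by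
      rw [← Real.rpow_natCast]
      exact Real.rpow_le_rpow_of_exponent_le (by linarith) hg2.le
    simp only [hf]
    linarith
  have hfu : (T : ℝ) ≤ f (32 * X) := by
    refine hT2.trans ?_
    have h1 : 0 ≤ (32 * X) ^ g := Real.rpow_nonneg (by linarith) _
    simp only [hf]
    linarith
  have hivt := intermediate_value_Icc (show 4 * X ≤ 32 * X by linarith) hfc
  obtain ⟨u, hu, hut⟩ := hivt (show t ∈ Icc (f (4 * X)) (f (32 * X)) from ⟨hfl, htT.le.trans hfu⟩)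
  obtain ⟨v, hv, hvT⟩ := hivt (show (T : ℝ) ∈ Icc (f (4 * X)) (f (32 * X)) from ⟨hfl.trans htT.le, hfu⟩)
  have hu4 : 4 * X ≤ u := hu.1
  have hv32 : v ≤ 32 * X := hv.2
  have hu0 : 0 < u := by linarith
  have hv0 : 0 < v := by linarith [hv.1]
  have huv : u ≤ v := by
    by_contra hne
    push Not at hne
    have := hmono v u hv0 hne.le
    rw [hut, hvT] at this
    linarith
  -- the length
  have hlen : c0 * X ^ (1 - ρ) ≤ v - u := by
    have h1 := bern (θ := θ) (by linarith) hu0 huv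
    have h1' := bern (θ := g) hg1' hu0 huv
    rw [hθd, Real.rpow_natCast, Real.rpow_natCast, ← hθd] at h1
    have hv1 : 1 ≤ v := by linarith [hv.1]
    have h2 : v ^ (θ - 1) ≤ (32 * X) ^ (θ - 1) := Real.rpow_le_rpow hv0.le hv32 (by linarith)
    have h2' : v ^ (g - 1) ≤ v ^ (θ - 1) := Real.rpow_le_rpow_of_exponent_le hv1 (by linarith)
    have h2'' : 0 ≤ v ^ (g - 1) := Real.rpow_nonneg hv0.le _
    have h3 : (T : ℝ) - t ≤ 2 * (θ * (32 * X) ^ (θ - 1)) * (v - u) := by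
      have e1 : (T : ℝ) - t = (v ^ k - u ^ k) + (v ^ g - u ^ g) := by
        rw [← hut, ← hvT]
        simp only [hf]
        ring
      rw [e1]
      have a1 : v ^ k - u ^ k ≤ θ * (32 * X) ^ (θ - 1) * (v - u) := by
        refine h1.trans ?_
        apply mul_le_mul_of_nonneg_right _ (by linarith)
        exact mul_le_mul_of_nonneg_left h2 hθ0.le
      have a2 : v ^ g - u ^ g ≤ θ * (32 * X) ^ (θ - 1) * (v - u) := by
        refine h1'.trans ?_
        apply mul_le_mul_of_nonneg_right _ (by linarith)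
        exact mul_le_mul hg2.le (h2'.trans h2) h2'' hθ0.le
      linarith
    have h4 : X ^ (θ - ρ) / 2 ≤ (T : ℝ) - t := by
      rw [ht]
      linarith
    have h5 : (32 * X) ^ (θ - 1) = 32 ^ (θ - 1) * X ^ (θ - 1) := Real.mul_rpow (by norm_num) hX0.le
    have h6 : X ^ (1 - ρ) = X ^ (θ - ρ) / X ^ (θ - 1) := by
      rw [← Real.rpow_sub hX0]
      congr 1
      ring
    have h7 : 0 < X ^ (θ - 1) := Real.rpow_pos_of_pos hX0 _
    have h8 : (0 : ℝ) < 32 ^ (θ - 1) := Real.rpow_pos_of_pos (by norm_num) _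
    rw [h5] at h3
    rw [h6, hc0]
    have e1 : 1 / (4 * θ * 32 ^ (θ - 1)) * (X ^ (θ - ρ) / X ^ (θ - 1)) =
        (X ^ (θ - ρ) / 2) / (2 * (θ * (32 ^ (θ - 1) * X ^ (θ - 1)))) := by
      field_simp
      norm_num
    rw [e1, div_le_iff₀ (by positivity)]
    linarith
  set Y := ⌈u⌉₊ with hY
  set M := ⌊v⌋₊ + 1 - Y with hM
  have hYu : u ≤ Y := Nat.le_ceil _
  have hYu' : (Y : ℝ) < u + 1 := Nat.ceil_lt_add_one hu0.le
  have hvf : (⌊v⌋₊ : ℝ) ≤ v := Nat.floor_le hv0.le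
  have hvf' : v < (⌊v⌋₊ : ℝ) + 1 := Nat.lt_floor_add_one v
  have hlen4 : 4 ≤ c0 * X ^ (1 - ρ) := by
    rw [div_le_iff₀ hc00] at g2
    linarith
  have hYv : Y ≤ ⌊v⌋₊ + 1 := by
    have : (Y : ℝ) < ((⌊v⌋₊ + 1 + 1 : ℕ) : ℝ) := by
      push_cast
      linarith
    have : Y < ⌊v⌋₊ + 1 + 1 := by exact_mod_cast this
    omega
  have hMr : (M : ℝ) = (⌊v⌋₊ : ℝ) + 1 - Y := by
    rw [hM, Nat.cast_sub hYv]
    push_cast
    ring
  have key := HW X ((le_max_left _ _).trans hX) Y M (hu4.trans hYu) (by rw [hMr]; linarith)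
  have hM1 : v - u - 1 ≤ M := by
    rw [hMr]
    linarith
  -- the sum over the subinterval
  have e2 : ∑ n ∈ Finset.range M, ww (((Y : ℝ) + n) ^ k + ((Y : ℝ) + n) ^ g) =
      ∑ z ∈ Finset.Ico Y (⌊v⌋₊ + 1), ww ((z : ℝ) ^ k + (z : ℝ) ^ g) := by
    rw [Finset.sum_Ico_eq_sum_range]
    refine Finset.sum_congr rfl fun n _ => ?_
    push_cast
    rfl
  have e3 : ∑ z ∈ Finset.Ico Y (⌊v⌋₊ + 1), ww ((z : ℝ) ^ k + (z : ℝ) ^ g) ≤
      ∑ z ∈ BB X, if (T < fp k g z + W ∧ fp k g z ≤ T) then ww ((z : ℝ) ^ k + (z : ℝ) ^ g) else 0 := by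
    rw [← Finset.sum_filter]
    apply Finset.sum_le_sum_of_subset_of_nonneg
    · intro z hz
      rw [Finset.mem_Ico] at hz
      have hz1 : u ≤ z := hYu.trans (by exact_mod_cast hz.1)
      have hz2 : (z : ℝ) ≤ v := by
        have : z ≤ ⌊v⌋₊ := by omega
        exact (Nat.cast_le.2 this).trans hvf
      have hz0 : (0 : ℝ) < z := by linarith
      rw [Finset.mem_filter]
      refine ⟨?_, ?_, ?_⟩
      · unfold BB
        rw [Finset.mem_Ico]
        constructor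
        · rw [Nat.ceil_le]
          linarith
        · have : z ≤ ⌊64 * X⌋₊ := by
            rw [Nat.le_floor_iff (by linarith)]
            linarith
          omega
      · have h1 : t ≤ (z : ℝ) ^ k + (z : ℝ) ^ g := by
          rw [← hut]
          exact hmono u z hu0 hz1
        have h2 : (z : ℝ) ^ k + (z : ℝ) ^ g < (fp k g z : ℝ) + 1 := Nat.lt_floor_add_one _
        have h3 : (T : ℝ) < ((fp k g z + W : ℕ) : ℝ) := by
          push_cast
          rw [ht] at h1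
          linarith
        exact_mod_cast h3
      · have h1 : (z : ℝ) ^ k + (z : ℝ) ^ g ≤ T := by
          rw [← hvT]
          exact hmono z v hz0 hz2
        unfold fp
        have := Nat.floor_le_floor h1
        rwa [Nat.floor_natCast] at this
    · intro z _ _
      exact ww_nonneg _
  rw [e2] at key
  have hXσ : C * X ^ (1 - σ) ≤ c0 / 8 * X ^ (1 - ρ) := by
    have h1 : X ^ (1 - ρ) = X ^ (1 - σ) * X ^ (σ - ρ) := by
      rw [← Real.rpow_add hX0]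
      congr 1
      ring
    have h2 : 0 < X ^ (1 - σ) := Real.rpow_pos_of_pos hX0 _
    rw [div_le_iff₀ hc00] at g3
    rw [h1]
    nlinarith
  linarith

end Pool.Agent.J4H7.WR
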