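import Pool.Agent.J4H7.WR.G0
import Pool.Agent.J4H30.WR.Esb

set_option autoImplicit false

/-!
# Waring's problem for `n ^ k + ⌊n ^ g⌋`, all `g > 1`, part G (helper7)

The main theorem (the exponential sums for large `β` are due to helper30).
-/

namespace Pool.Agent.J4H7.WR

open Real Set Filter Topology MeasureTheory

/-- **the main theorem** -/
theorem main (k : ℕ) (hk : 2 ≤ k) :
    ∀ᵐ g : ℝ, 1 < g → g < k → ∀ s : ℕ, 2 * (k + g - 1) * Real.log (1 + k / (g - 1)) + 3 ≤ s →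
      ∃ N₀ : ℕ, ∀ N : ℕ, N₀ ≤ N → ∃ x : Fin s → ℕ, (∀ i, 1 ≤ x i) ∧ ∑ i, ((x i) ^ k + ⌊(x i : ℝ) ^ g⌋₊) = N :=
  main_of (fun k hk g hg1 hg2 hgn => Pool.Agent.J4H30.WR.t_ESB k hk hg1 hg2 hgn) k hk

/-- all integers `k` simultaneously -/
theorem main_all : ∀ᵐ g : ℝ, 1 < g → ∀ k s : ℕ, g < k → 2 * (k + g - 1) * Real.log (1 + k / (g - 1)) + 3 ≤ s →
    ∃ N₀ : ℕ, ∀ N : ℕ, N₀ ≤ N → ∃ x : Fin s → ℕ, (∀ i, 1 ≤ x i) ∧ ∑ i, ((x i) ^ k + ⌊(x i : ℝ) ^ g⌋₊) = N := by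
  have h : ∀ᵐ g : ℝ, ∀ k : ℕ, 2 ≤ k → 1 < g → g < k → ∀ s : ℕ, 2 * (k + g - 1) * Real.log (1 + k / (g - 1)) + 3 ≤ s →
      ∃ N₀ : ℕ, ∀ N : ℕ, N₀ ≤ N → ∃ x : Fin s → ℕ, (∀ i, 1 ≤ x i) ∧ ∑ i, ((x i) ^ k + ⌊(x i : ℝ) ^ g⌋₊) = N := by
    rw [ae_all_iff]
    intro k
    by_cases hk : 2 ≤ k
    · filter_upwards [main k hk] with g hg _
      exact hg
    · exact Eventually.of_forall fun _ hk' => absurd hk' hk
  filter_upwards [h] with g hg hg1 k s hgk hs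
  have hk : 2 ≤ k := by
    have : (1 : ℝ) < k := hg1.trans hgk
    have : 1 < k := by exact_mod_cast this
    omega
  exact hg k hk hg1 hgk s hs

end Pool.Agent.J4H7.WR
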