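import Pool.Agent.J4H7.WR.F
import Pool.Agent.J4H7.WP.G

set_option autoImplicit false

/-!
# Waring's problem for `n ^ k + ⌊n ^ g⌋`, all `g > 1`, part G0 (helper7)

The parameters, and the main theorem from the exponential sums.
-/

namespace Pool.Agent.J4H7.WR

open Real Set Filter Topology MeasureTheory
open Pool.Agent.J4H7.WE
open Pool.Agent.J4H7.WP

/-- **the ratio of the levels** -/
lemma exists_qQ {k m : ℕ} (hk : 2 ≤ k) {g : ℝ} (hg1 : 1 < g) (hg2 : g < k)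
    (hm : (k + g - 1) * Real.log (1 + k / (g - 1)) ≤ m) :
    ∃ q : ℚ, 0 < (q : ℝ) ∧ (q : ℝ) < 1 ∧ (1 - (q : ℝ)) * k < 1 ∧ (q : ℝ) ^ 2 * k < (k : ℝ) - 1 ∧
      (q : ℝ) ^ 2 * g < (k : ℝ) - 1 - q * (k - g) ∧ 1 < (1 - (q : ℝ)) * (2 * k - 1 - q * (k - g)) ∧
      (k : ℝ) < ∑ i ∈ Finset.range m, (q : ℝ) ^ i := by
  have hk' : (2 : ℝ) ≤ k := by exact_mod_cast hk
  set t : ℝ := k + g - 1 with ht
  have htk : (k : ℝ) < t := by rw [ht]; linarith
  have ht0 : 0 < t := by linarith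
  have ht1 : 1 < t := by linarith
  set q0 : ℝ := 1 - 1 / t with hq0
  have h1t : 1 / t < 1 := by rw [div_lt_one ht0]; exact ht1
  have h1t0 : 0 < 1 / t := by positivity
  have a1 : 0 < q0 := by rw [hq0]; linarith
  have a2 : q0 < 1 := by rw [hq0]; linarith
  have a3 : (1 - q0) * k < 1 := by
    have : (1 - q0) * k = k / t := by rw [hq0]; ring
    rw [this, div_lt_one ht0]
    exact htk
  have a4 : q0 ^ 2 * k < (k : ℝ) - 1 := by
    have h1 : (k : ℝ) - 1 - q0 ^ 2 * k = (k * (2 * t - 1) - t ^ 2) / t ^ 2 := by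
      rw [hq0]
      field_simp
      ring
    have h2 : 0 < (k * (2 * t - 1) - t ^ 2) / t ^ 2 := by
      apply div_pos _ (by positivity)
      have h3 : k * (2 * t - 1) - t ^ 2 = k * (k - 1) - (g - 1) ^ 2 := by
        rw [ht]
        ring
      rw [h3]
      nlinarith
    linarith
  have a5 : q0 ^ 2 * g < (k : ℝ) - 1 - q0 * (k - g) := by
    have h1 : (k : ℝ) - 1 - q0 * (k - g) - q0 ^ 2 * g = (t - g) / t ^ 2 := by
      rw [hq0, ht]
      have : (k : ℝ) + g - 1 ≠ 0 := by rw [ht] at ht0; exact ht0.ne'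
      field_simp
      ring
    have h2 : 0 < (t - g) / t ^ 2 := by
      apply div_pos _ (by positivity)
      rw [ht]
      linarith
    linarith
  have a6 : 1 < (1 - q0) * (2 * k - 1 - q0 * (k - g)) := by
    have h1 : (1 - q0) * (2 * k - 1 - q0 * (k - g)) - 1 = (k - g) / t ^ 2 := by
      rw [hq0, ht]
      have : (k : ℝ) + g - 1 ≠ 0 := by rw [ht] at ht0; exact ht0.ne'
      field_simp
      ring
    have h2 : 0 < (k - g) / t ^ 2 := div_pos (by linarith) (by positivity)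
    linarith
  have a7 : (k : ℝ) < ∑ i ∈ Finset.range m, q0 ^ i := by
    have hgeom : (1 - q0) * ∑ i ∈ Finset.range m, q0 ^ i = 1 - q0 ^ m := mul_neg_geom_sum q0 m
    have hg0 : 0 < g - 1 := by linarith
    have e1 : 1 + k / (g - 1) = t / (g - 1) := by
      rw [ht]
      field_simp
      ring
    rw [e1] at hm
    have hlog : 0 < Real.log (t / (g - 1)) := by
      apply Real.log_pos
      rw [lt_div_iff₀ hg0]
      rw [ht]
      linarith
    have hm0 : (0 : ℝ) < m := lt_of_lt_of_le (mul_pos ht0 hlog) hm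
    have h1 : q0 ^ m < (g - 1) / t := by
      have h2 : Real.log q0 < -(1 / t) := by
        have := Real.log_lt_sub_one_of_pos a1 a2.ne
        rw [hq0] at this ⊢
        linarith
      have h3 : q0 ^ m = Real.exp (m * Real.log q0) := by
        rw [← Real.rpow_natCast, Real.rpow_def_of_pos a1, mul_comm]
      have h4 : (g - 1) / t = Real.exp (-Real.log (t / (g - 1))) := by
        rw [Real.exp_neg, Real.exp_log (by positivity), inv_div]
      rw [h3, h4]
      apply Real.exp_lt_exp.2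
      have h5 : m * Real.log q0 < m * (-(1 / t)) := mul_lt_mul_of_pos_left h2 hm0
      have h6 : Real.log (t / (g - 1)) ≤ m * (1 / t) := by
        rw [mul_one_div, le_div_iff₀ ht0]
        linarith
      linarith
    have h2 : ∑ i ∈ Finset.range m, q0 ^ i = t * (1 - q0 ^ m) := by
      rw [← hgeom, ← mul_assoc]
      have : t * (1 - q0) = 1 := by
        rw [hq0]
        field_simp
        ring
      rw [this, one_mul]
    rw [h2]
    have h3 : t * ((g - 1) / t) = g - 1 := by field_simp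
    have h4 : t * q0 ^ m < g - 1 := by
      rw [← h3]
      exact mul_lt_mul_of_pos_left h1 ht0
    rw [mul_sub, mul_one]
    rw [ht] at h4 ⊢
    linarith
  -- the rational
  set U : Set ℝ := {q | 0 < q} ∩ {q | q < 1} ∩ {q | (1 - q) * k < 1} ∩ {q | q ^ 2 * k < (k : ℝ) - 1} ∩
    {q | q ^ 2 * g < (k : ℝ) - 1 - q * (k - g)} ∩ {q | 1 < (1 - q) * (2 * k - 1 - q * (k - g))} ∩
    {q | (k : ℝ) < ∑ i ∈ Finset.range m, q ^ i} with hU
  have hopen : IsOpen U := by
    refine (((((IsOpen.inter ?_ ?_).inter ?_).inter ?_).inter ?_).inter ?_).inter ?_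
    · exact isOpen_lt continuous_const continuous_id
    · exact isOpen_lt continuous_id continuous_const
    · exact isOpen_lt (by fun_prop) (by fun_prop)
    · exact isOpen_lt (by fun_prop) (by fun_prop)
    · exact isOpen_lt (by fun_prop) (by fun_prop)
    · exact isOpen_lt (by fun_prop) (by fun_prop)
    · exact isOpen_lt (by fun_prop) (by fun_prop)
  have hmem : q0 ∈ U := ⟨⟨⟨⟨⟨⟨a1, a2⟩, a3⟩, a4⟩, a5⟩, a6⟩, a7⟩
  obtain ⟨q, hq⟩ := Rat.denseRange_cast.exists_mem_open hopen ⟨q0, hmem⟩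
  obtain ⟨⟨⟨⟨⟨⟨b1, b2⟩, b3⟩, b4⟩, b5⟩, b6⟩, b7⟩ := hq
  exact ⟨q, b1, b2, b3, b4, b5, b6, b7⟩

/-- the main theorem, from the exponential sums -/
theorem main_of (H : ∀ k : ℕ, 2 ≤ k → ∀ g : ℝ, 1 < g → g < k → (∀ n : ℕ, g ≠ n) → ESBs k g) (k : ℕ) (hk : 2 ≤ k) :
    ∀ᵐ g : ℝ, 1 < g → g < k → ∀ s : ℕ, 2 * (k + g - 1) * Real.log (1 + k / (g - 1)) + 3 ≤ s →
      ∃ N₀ : ℕ, ∀ N : ℕ, N₀ ≤ N → ∃ x : Fin s → ℕ, (∀ i, 1 ≤ x i) ∧ ∑ i, ((x i) ^ k + ⌊(x i : ℝ) ^ g⌋₊) = N := by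
  have h1 : ∀ᵐ g : ℝ, ∀ n : ℕ, g ≠ n := by
    rw [ae_all_iff]
    intro n
    have : ({(n : ℝ)} : Set ℝ)ᶜ ∈ ae (volume : Measure ℝ) := by
      rw [compl_mem_ae_iff]
      simp
    filter_upwards [this] with g hg
    exact hg
  filter_upwards [h1, ae_meanQ k hk] with g hgn hmean hg1 hg2 s hs
  have hk' : (2 : ℝ) ≤ k := by exact_mod_cast hk
  have hg0 : 0 < g - 1 := by linarith
  set m : ℕ := ⌈(k + g - 1) * Real.log (1 + k / (g - 1))⌉₊ with hm
  have hlog : 0 ≤ Real.log (1 + k / (g - 1)) := by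
    apply Real.log_nonneg
    have : 0 ≤ (k : ℝ) / (g - 1) := by positivity
    linarith
  have hm1 : (k + g - 1) * Real.log (1 + k / (g - 1)) ≤ m := Nat.le_ceil _
  have hm2 : (m : ℝ) < (k + g - 1) * Real.log (1 + k / (g - 1)) + 1 :=
    Nat.ceil_lt_add_one (mul_nonneg (by linarith) hlog)
  obtain ⟨q, b1, b2, b3, b4, b5, b6, b7⟩ := exists_qQ hk hg1 hg2 hm1
  have hMV := hmean hg1 hg2 q m b1 b2 b3.le b4 b5 b6 b7.le
  have hs' : 2 * m + 1 ≤ s := by
    have : ((2 * m + 1 : ℕ) : ℝ) < s := by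
      push_cast
      linarith
    have : 2 * m + 1 < s := by exact_mod_cast this
    omega
  obtain ⟨N1, hN1⟩ := eventually_atTop.1 (repr_allQ k hk hg1.le hg2 (H k hk g hg1 hg2 hgn) q m b1 b2 hMV)
  refine ⟨N1 + (s - (2 * m + 1)) * fp k g 1, fun N hN => ?_⟩
  obtain ⟨x, y, z, hx, hy, hz, h3⟩ := hN1 (N - (s - (2 * m + 1)) * fp k g 1) (by omega)
  obtain ⟨w, hw, h4⟩ := joinP (k := k) (g := g) hs' x y z hx hy hz
  refine ⟨w, hw, ?_⟩
  have h5 : ∑ i, fp k g (w i) = N := by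
    rw [h4, h3]
    omega
  rw [← h5]
  exact Finset.sum_congr rfl fun i _ => (fp_eq k g (w i)).symm

end Pool.Agent.J4H7.WR
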